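import Pool.Agent.Helper7_C4K.Wall4
import Pool.Agent.Helper48_C4K.Cnt
import Pool.Agent.Helper48_C4K.Wcn
import Pool.Agent.Helper48_C4K.Sss
import Pool.Agent.Helper48_C4K.Li3
import Pool.Agent.Helper58_C4K.Pim
import Pool.Agent.Helper58_C4K.Kst
import Pool.Agent.Helper58_C4K.Rct
import Pool.Agent.Helper58_C4K.Fin
import Pool.Agent.Helper5_C4K.P3
import Pool.Agent.Helper5_C4K.Hit
import Pool.Agent.Helper31_C4K.Rds
import Pool.Agent.Helper66_C4K.Mrk
import Pool.Agent.Helper86_C4K.Nod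
import Pool.Agent.Helper82_C4K.Sumg
import Pool.Agent.Helper59_C4K.Coig
import Pool.Agent.Helper76_C4K.Pre
import Pool.Agent.Helper32_C4K.Dup
import Pool.Agent.Helper32_C4K.Prc
import Pool.Agent.Helper24_C4K.Nu1
import Pool.Agent.Helper79_C4K.Nub3
import Pool.Agent.Helper79_C4K.Nub4
import Pool.Agent.Helper84_C4K.Ise
import Pool.Agent.Helper84_C4K.Li1
import Pool.Agent.Helper84_C4K.Mk0
import Pool.Agent.Helper84_C4K.Nub2
import Pool.Agent.Helper85_C4K.Q23
import Pool.Agent.Helper65_C4K.Plk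
import Pool.Agent.Helper83_C4K.Prd
import Pool.Agent.Helper6_C4K.Li2
import Pool.Agent.Helper10_C4K.Clo

/-!
# WALKS with the linear statistic, unconditional
-/

set_option autoImplicit false

namespace Pool.Agent.C4K.H7

open Pool.Agent.C4K

theorem dup' : DUPStmt := H32.dup
theorem itr' : ITRStmt := H10.itr
theorem rds' : RDSStmt := H31.rds H58.pim itr'
theorem plk' : PLKStmt := plk H48.wpc
theorem pre' : PREStmt := H76.pre plk'
theorem fin2' : FIN2Stmt := H58.fin2 itr' (H10.clo' H58.pim) (H10.old H58.pim) dup'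
theorem p3' : P3Stmt := H5.p3 H48.wcn
theorem hit' : HITStmt := H5.hit H48.wcn H48.wpc H58.kst p3'
theorem q23' : Q23Stmt := H85.q23 (H48.sss H58.kst) H58.pim itr'
theorem q6' : Q6Stmt := H85.q6 hit'
theorem nod' : NODStmt := H86.nodT rds'
theorem mk0' : MK0Stmt := mk0 H48.wpc
theorem rct' : RCTStmt := H58.rct H48.wpc rds'
theorem sumg' : SUMGStmt := H82.sumg nod' H48.wpc rct' mk0'
theorem mrk' : MRKStmt := H66.mrk H58.pim itr'
theorem coig' : COIGStmt := H59.coig H58.pim itr' rds' mrk'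
theorem li3' : LI3Stmt := H48.li3 H58.pim plk' pre' H6.li2 dup'

/-- **WALKS** with the linear statistic. -/
theorem walksl : WALKSLStmt :=
  wall H58.pim nod' (H83.prd H48.wpc H58.pim) q23' q6' H32.prc pre' sumg' (ise itr') coig' fin2'
    (li1 H58.pim H48.wpc) H6.li2 li3' H24.nu1 nub2 H79.nub3 H79.nub4

end Pool.Agent.C4K.H7
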