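import Pool.Agent.Helper7_C4K.Final
import Pool.Agent.Helper82_C4K.Sw3
import Pool.Agent.Helper82_C4K.Sw4

/-!
# WALKS with the linear statistic and the two counts of changed arcs, unconditional
-/

set_option autoImplicit false

namespace Pool.Agent.C4K.H7

open Pool.Agent.C4K

/-- **WALKS** with the linear statistic and the counts of changed arcs. -/
theorem walksm : H82.WALKSMStmt :=
  H82.wallm plk' H82.nus itr' (H10.clo' H58.pim) (H10.old H58.pim) dup' H58.pim nod'
    (H83.prd H48.wpc H58.pim) q23' q6' H32.prc pre' sumg' (ise itr') coig'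
    (li1 H58.pim H48.wpc) H6.li2 li3' H24.nu1 nub2 H79.nub3 H79.nub4

end Pool.Agent.C4K.H7
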