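import Pool.Agent.Helper7_C4K.Wall3

/-!
# Assembly of WALKS with the linear statistic, part 4: coins and conclusion
-/

set_option autoImplicit false
set_option linter.unusedSectionVars false

namespace Pool.Agent.C4K.H7

open Finset Cl
open scoped Classical

noncomputable section

variable {V : Type} [Fintype V]

section coins

variable {n : ℕ} {C : Fin n → Cl V} {T : ℕ} (τ : ℕ → ℕ) (om : Cf C T) (A : ℕ)
  (al : Fin n → V → ℝ)

lemma gco_nonneg (h0 : ∀ c v, 0 ≤ al c v) (t : ℕ) (c : Fin n) (v' : V) :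
    0 ≤ gco τ om A al t c v' := by
  unfold gco
  exact add_nonneg (mul_nonneg (h0 c v') (ind_nonneg τ om A t c v'))
    (Finset.sum_nonneg fun v _ => mul_nonneg (h0 c v) (ind_nonneg τ om A t c v))

lemma alind_le {wm : ℝ} (h0 : ∀ c v, 0 ≤ al c v) (h1 : ∀ c v, al c v ≤ wm) (t : ℕ) (c : Fin n)
    (v : V) : al c v * ind τ om A t c v ≤ wm :=
  (mul_le_of_le_one_right (h0 c v) (ind_le τ om A t c v)).trans (h1 c v)

lemma gco_le {wm : ℝ} (hw : 0 ≤ wm) (h0 : ∀ c v, 0 ≤ al c v) (h1 : ∀ c v, al c v ≤ wm) (t : ℕ)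
    (c : Fin n) (v' : V) : gco τ om A al t c v' ≤ 2 * wm := by
  unfold gco
  have e1 := alind_le τ om A al h0 h1 t c v'
  have e2 := sum_filt_le (f := cx (om c)) (fun v => al c v * ind τ om A t c v) wm hw
    (fun v => alind_le τ om A al h0 h1 t c v) v'
  linarith

lemma gco_sum (hinj : ∀ c, PInj (cx (om c))) (h0 : ∀ c v, 0 ≤ al c v) (t : ℕ) (c : Fin n) :
    (∑ v', gco τ om A al t c v') ≤ 2 * ∑ v, al c v * ind τ om A t c v := by
  unfold gco
  rw [Finset.sum_add_distrib]
  have e2 := sum_img (hinj c) (fun v => al c v * ind τ om A t c v)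
    (fun v => mul_nonneg (h0 c v) (ind_nonneg τ om A t c v))
  linarith

/-- where `gco` is not zero -/
lemma gco_ne (t : ℕ) (c : Fin n) (v' : V) (h : gco τ om A al t c v' ≠ 0) :
    al c v' ≠ 0 ∨ ∃ v, cx (om c) v' = some v ∧ al c v ≠ 0 := by
  by_contra hcon
  push Not at hcon
  obtain ⟨h1, h2⟩ := hcon
  apply h
  unfold gco
  rw [h1, zero_mul, zero_add]
  apply Finset.sum_eq_zero
  intro v hv
  rw [mem_filter] at hv
  rw [h2 v hv.2, zero_mul]

lemma gco_card (hinj : ∀ c, PInj (cx (om c))) (S : Finset V) (hS : ∀ c v, al c v ≠ 0 → v ∈ S)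
    (t : ℕ) (c : Fin n) : (univ.filter fun v' => gco τ om A al t c v' ≠ 0).card ≤
      2 * S.card := by
  have h1 := card_pre (hinj c) S
  have h2 : (univ.filter fun v' => gco τ om A al t c v' ≠ 0) ⊆
      S ∪ (univ.filter fun u => ∃ v, cx (om c) u = some v ∧ v ∈ S) := by
    intro u hu
    rw [mem_filter] at hu
    rw [mem_union, mem_filter]
    rcases gco_ne τ om A al t c u hu.2 with h | ⟨v, h, h'⟩
    · exact Or.inl (hS c u h)
    · exact Or.inr ⟨mem_univ _, v, h, hS c v h'⟩
  have h3 := (Finset.card_le_card h2).trans (Finset.card_union_le _ _)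
  omega

lemma gco_card2 (hinj : ∀ c, PInj (cx (om c))) (S : Finset V) (hS : ∀ c v, al c v ≠ 0 → v ∈ S)
    (R : Finset ℕ) : ((R ×ˢ (univ : Finset (Fin n × V))).filter fun x =>
      gco τ om A al x.1 x.2.1 x.2.2 ≠ 0).card ≤ R.card * (n * (2 * S.card)) := by
  rw [Finset.card_filter, Finset.sum_product]
  have h1 : ∀ t ∈ R, (∑ y : Fin n × V, if gco τ om A al t y.1 y.2 ≠ 0 then 1 else 0) ≤
      n * (2 * S.card) := by
    intro t _
    rw [Fintype.sum_prod_type]
    have h2 : ∀ c ∈ (univ : Finset (Fin n)),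
        (∑ y : V, if gco τ om A al t (c, y).1 (c, y).2 ≠ 0 then 1 else 0) ≤ 2 * S.card := by
      intro c _
      refine le_trans (le_of_eq ?_) (gco_card τ om A al hinj S hS t c)
      rw [Finset.card_filter]
    refine (Finset.sum_le_sum h2).trans (le_of_eq ?_)
    rw [Finset.sum_const, Finset.card_univ, Fintype.card_fin, smul_eq_mul]
  refine (Finset.sum_le_sum h1).trans (le_of_eq ?_)
  rw [Finset.sum_const, smul_eq_mul]

/-- losses through coins, weighted -/
lemma coin_loss (h0 : ∀ c v, 0 ≤ al c v) (κ : ℕ → Fin n → V → Bool) (c : Fin n) :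
    (∑ v, al c v * (if (∃ t, t ≤ A ∧ κ t c v = true ∧
        (t = A ∨ Iv (τ t) (τ (t + 1)) (om c) v)) ∨
      (∃ t v', t ≤ A ∧ cx (om c) v' = some v ∧ κ t c v' = true ∧
        (t = A ∨ Iv (τ t) (τ (t + 1)) (om c) v)) then 1 else 0)) ≤
      ∑ t ∈ range (A + 1), ∑ v', gco τ om A al t c v' * (if κ t c v' = true then 1 else 0) := by
  have e1 : (∑ t ∈ range (A + 1), ∑ v', gco τ om A al t c v' *
      (if κ t c v' = true then (1 : ℝ) else 0)) =
      ∑ v, al c v * ((∑ t ∈ range (A + 1), ind τ om A t c v * (if κ t c v = true then 1 else 0)) +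
        ∑ t ∈ range (A + 1), ∑ v' ∈ univ.filter (fun v' => cx (om c) v' = some v),
          ind τ om A t c v * (if κ t c v' = true then 1 else 0)) := by
    have e2 : ∀ t, (∑ v', gco τ om A al t c v' * (if κ t c v' = true then (1 : ℝ) else 0)) =
        (∑ v, al c v * (ind τ om A t c v * (if κ t c v = true then 1 else 0))) +
        ∑ v, al c v * ∑ v' ∈ univ.filter (fun v' => cx (om c) v' = some v),
          ind τ om A t c v * (if κ t c v' = true then 1 else 0) := by
      intro t
      have e3 : (∑ v, al c v * ∑ v' ∈ univ.filter (fun v' => cx (om c) v' = some v),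
          ind τ om A t c v * (if κ t c v' = true then (1 : ℝ) else 0)) =
          ∑ v', ∑ v ∈ univ.filter (fun v => cx (om c) v' = some v),
            al c v * (ind τ om A t c v * (if κ t c v' = true then 1 else 0)) := by
        rw [Finset.sum_comm' (t' := univ) (s' := fun v => univ.filter fun v' =>
          cx (om c) v' = some v)]
        · apply Finset.sum_congr rfl
          intro v _
          rw [Finset.mul_sum]
        · intro x y
          simp
      rw [e3, ← Finset.sum_add_distrib]
      apply Finset.sum_congr rfl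
      intro v' _
      unfold gco
      rw [add_mul, Finset.sum_mul]
      congr 1
      · ring
      · apply Finset.sum_congr rfl
        intro v _
        ring
    rw [Finset.sum_congr rfl fun t _ => e2 t, Finset.sum_add_distrib, Finset.sum_comm,
      Finset.sum_comm (s := range (A + 1)), ← Finset.sum_add_distrib]
    apply Finset.sum_congr rfl
    intro v _
    rw [mul_add, Finset.mul_sum, Finset.mul_sum]
  rw [e1]
  apply Finset.sum_le_sum
  intro v _
  apply mul_le_mul_of_nonneg_left _ (h0 c v)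
  have n1 : ∀ t ∈ range (A + 1), 0 ≤ ind τ om A t c v *
      (if κ t c v = true then (1 : ℝ) else 0) := by
    intro t _
    exact mul_nonneg (ind_nonneg τ om A t c v) (by split_ifs <;> norm_num)
  have n2 : ∀ t ∈ range (A + 1), 0 ≤ ∑ v' ∈ univ.filter (fun v' => cx (om c) v' = some v),
      ind τ om A t c v * (if κ t c v' = true then (1 : ℝ) else 0) := by
    intro t _
    exact Finset.sum_nonneg fun v' _ =>
      mul_nonneg (ind_nonneg τ om A t c v) (by split_ifs <;> norm_num)
  have s1 := Finset.sum_nonneg n1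
  have s2 := Finset.sum_nonneg n2
  split_ifs with h
  · rcases h with ⟨t, ht, hκ, hI⟩ | ⟨t, v', ht, hv', hκ, hI⟩
    · have h3 := Finset.single_le_sum n1 (mem_range.2 (Nat.lt_succ_of_le ht))
      have h4 : ind τ om A t c v = 1 := by unfold ind; rw [if_pos hI]
      rw [h4, hκ] at h3
      simp only [if_true, mul_one] at h3
      linarith
    · have h3 := Finset.single_le_sum n2 (mem_range.2 (Nat.lt_succ_of_le ht))
      have h5 : (1 : ℝ) ≤ ∑ v' ∈ univ.filter (fun v' => cx (om c) v' = some v),
          ind τ om A t c v * (if κ t c v' = true then (1 : ℝ) else 0) := by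
        have h6 := Finset.single_le_sum (s := univ.filter (fun v' => cx (om c) v' = some v))
          (f := fun v' => ind τ om A t c v * (if κ t c v' = true then (1 : ℝ) else 0))
          (fun v' _ => mul_nonneg (ind_nonneg τ om A t c v) (by split_ifs <;> norm_num))
          (mem_filter.2 ⟨mem_univ v', hv'⟩)
        have h4 : ind τ om A t c v = 1 := by unfold ind; rw [if_pos hI]
        simp only [h4, hκ, if_true, mul_one] at h6
        rw [h4]
        simpa using h6
      linarith
  · linarith

end coins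

/-- **Assembly of WALKS with the linear statistic.** -/
theorem wall (hPIM : PIMStmt) (hNOD : NODStmt) (hPRD : PRDStmt) (hQ23 : Q23Stmt) (hQ6 : Q6Stmt)
    (hPRC : PRCStmt) (hPRE : PREStmt) (hSUM : SUMGStmt) (hISE : ISEStmt) (hCOI : COIGStmt)
    (hFIN : FIN2Stmt) (hLI1 : LI1Stmt) (hLI2 : LI2Stmt) (hLI3 : LI3Stmt)
    (hNU1 : NU1Stmt) (hNU2 : NUB2Stmt) (hNU3 : NUB3Stmt) (hNU4 : NUB4Stmt) : WALKSLStmt := by
  intro B
  obtain ⟨k1, h1⟩ := hNU1
  obtain ⟨k2, h2⟩ := hNU2 B
  obtain ⟨k3, h3⟩ := hNU3 B
  obtain ⟨k4, h4⟩ := hNU4 B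
  refine ⟨max 1 (max (max k1 k2) (max k3 k4)), 12 * kM B, ?_⟩
  intro V _ N P n f M k s eps U _ a hk hNH hN hPN hinj hfN hdis hM hout hinn hW0 hMK ha
  have hk1 : 1 ≤ k := (le_max_left _ _).trans hk
  have hk' : max (max k1 k2) (max k3 k4) ≤ k := (le_max_right _ _).trans hk
  have n1 := h1 k n s eps (((le_max_left _ _).trans (le_max_left _ _)).trans hk') hNH
  have n2 := h2 k n s eps (((le_max_right _ _).trans (le_max_left _ _)).trans hk') hNH
  have n3 := h3 k n s eps (((le_max_left _ _).trans (le_max_right _ _)).trans hk') hNH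
  have n4 := h4 k n s eps (((le_max_right _ _).trans (le_max_right _ _)).trans hk') hNH
  set C : Fin n → Cl V := fun c => ⟨N, P, f c, M c⟩ with hC
  have hok : ∀ c, (C c).Ok (kd s eps) := by
    intro c
    refine ⟨hN, hPN, fun x y h => (hfN c x y h).1, fun x y h => (hfN c x y h).2, hinj c,
      hM c, n1.d1, fun x => ?_, fun x' => ?_⟩
    · by_cases hx : M c x
      · exact (hout c x hx).2
      · have : (univ.filter fun x' => (C c).gam x x') = ∅ := by
          ext x'
          simp only [mem_filter, mem_univ, true_and, notMem_empty, iff_false]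
          exact fun h => hx h.1
        rw [this, Finset.card_empty, Nat.cast_zero]
        linarith [n1.d1]
    · by_cases hx : M c x'
      · exact (hinn c x' hx).2
      · have : (univ.filter fun x => (C c).gam x x') = ∅ := by
          ext x
          simp only [mem_filter, mem_univ, true_and, notMem_empty, iff_false]
          exact fun h => hx h.2.1
        rw [this, Finset.card_empty, Nat.cast_zero]
        linarith [n1.d1]
  have hpar : ∀ c, Par (C c) (kd s eps) (kT k) (kp k s) (kz k) (kr k) := fun c =>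
    ⟨hok c, n1.T1, n1.Td, n1.p0, n1.ph, n1.pd, n1.z0, n1.zr, n1.r1⟩
  have hlow : ∀ c, Low (C c) (ks1 s eps) (kT k) (kp k s) (kz k) := fun c =>
    ⟨n1.s0, fun x hx => (hout c x hx).1, fun x hx => (hinn c x hx).1, n1.low⟩
  have hL0 : ∀ c x m, 1 ≤ m → it (C c).f m x = some x → kL0 k ≤ m := by
    intro c x m hm hx
    exact Nat.ceil_le.2 (hW0 c x m hm hx)
  obtain ⟨om, hom⟩ := stage1 hNOD hPRD hQ23 hQ6 hPRC hPRE hSUM hISE hLI1 hLI2 hLI3 C hk1 hNH n1
    n2 n4 hpar hlow hL0 hMK U a ha
  have hcx : ∀ c, PInj (cx (om c)) := fun c => (hPIM V (C c) _ (kT k) (hok c)).inj (om c)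
  have hc1 : ∀ u, (univ.filter fun v => ∃ c, a u c v ≠ 0).card ≤ kB1 k B := by
    intro u
    have h := (ha.c1 u).trans (Nat.le_ceil _)
    unfold kB1
    exact_mod_cast h
  have hc2 : ∀ v, (univ.filter fun u => ∃ c, a u c v ≠ 0).card ≤ kB1 k B := by
    intro v
    have h := (ha.c2 v).trans (Nat.le_ceil _)
    unfold kB1
    exact_mod_cast h
  have hwm : 0 < 2 * kwm k := by have := n4.w0; linarith
  have hlin : ∀ u, 7 * (∑ t ∈ range (11 + 1), ∑ c, ∑ v, gco (kτ k) om 11 (a u) t c v *
      kπ k t) ≤ kX k := by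
    intro u
    refine le_trans ?_ n3.lin
    apply mul_le_mul_of_nonneg_left _ (by norm_num)
    rw [Finset.sum_range_succ]
    apply add_le_add
    · apply Finset.sum_le_sum
      intro t ht
      rw [mem_range] at ht
      have e1 : (∑ c, ∑ v, gco (kτ k) om 11 (a u) t c v * kπ k t) =
          (∑ c, ∑ v, gco (kτ k) om 11 (a u) t c v) * kπ k t := by
        rw [Finset.sum_mul]
        apply Finset.sum_congr rfl
        intro c _
        rw [Finset.sum_mul]
      rw [e1]
      apply mul_le_mul_of_nonneg_right _ (n3.p0 t)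
      calc (∑ c, ∑ v, gco (kτ k) om 11 (a u) t c v) ≤
          ∑ c, 2 * ∑ v, a u c v * ind (kτ k) om 11 t c v :=
            Finset.sum_le_sum fun c _ => gco_sum (kτ k) om 11 (a u) hcx (ha.a0 u) t c
        _ = 2 * ∑ c, F2 (kτ k t) (kτ k (t + 1)) (a u c) (om c) := by
            rw [Finset.mul_sum]
            apply Finset.sum_congr rfl
            intro c _
            congr 1
            unfold F2
            apply Finset.sum_congr rfl
            intro v _
            congr 1
            unfold ind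
            have h11 : ¬ t = 11 := by omega
            simp only [h11, false_or]
        _ ≤ _ := by
            have := hom.l3 t ht u
            linarith
    · have e1 : (∑ c, ∑ v, gco (kτ k) om 11 (a u) 11 c v * kπ k 11) =
          (∑ c, ∑ v, gco (kτ k) om 11 (a u) 11 c v) * kπ k 11 := by
        rw [Finset.sum_mul]
        apply Finset.sum_congr rfl
        intro c _
        rw [Finset.sum_mul]
      rw [e1]
      apply mul_le_mul_of_nonneg_right _ (n3.p0 11)
      calc (∑ c, ∑ v, gco (kτ k) om 11 (a u) 11 c v) ≤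
          ∑ _c : Fin n, (200 : ℝ) := by
            apply Finset.sum_le_sum
            intro c _
            refine (gco_sum (kτ k) om 11 (a u) hcx (ha.a0 u) 11 c).trans ?_
            have e2 : (∑ v, a u c v * ind (kτ k) om 11 11 c v) ≤ ∑ v, a u c v :=
              Finset.sum_le_sum fun v _ =>
                mul_le_of_le_one_right (ha.a0 u c v) (ind_le (kτ k) om 11 11 c v)
            have e3 := ha.s1 u c
            linarith
        _ = 200 * n := by
            rw [Finset.sum_const, Finset.card_univ, Fintype.card_fin, nsmul_eq_mul]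
            ring
  obtain ⟨κ, hκ, hκX⟩ := hCOI V n C (kd s eps) (kT k) (kL k) (kL1 k) (kK B) 11 (kM B) (kτ k)
    (kmB k n (kd s eps) B) (kπ k) (kεB k B) om hok n1.L n1.TL n1.L1 (by unfold kM; omega) hMK rfl
    n1.mono hom.mu hom.Iv (fun a => ⟨n3.p0 a, n3.p1 a⟩) n2.e0 n3.ka n3.kb U
    (fun u => gco (kτ k) om 11 (a u)) (2 * kwm k) (kX k) (24 * n * kB1 k B) (2 * kB1 k B) hwm
    (fun u t c v => ⟨gco_nonneg (kτ k) om 11 (a u) (ha.a0 u) t c v,
      gco_le (kτ k) om 11 (a u) n4.w0.le (ha.a0 u) (ha.a1 u) t c v⟩)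
    hlin n3.exp
    (by
      intro u
      refine (gco_card2 (kτ k) om 11 (a u) hcx (univ.filter fun v => ∃ c, a u c v ≠ 0)
        (fun c v hv => mem_filter.2 ⟨mem_univ _, c, hv⟩) (range (11 + 1))).trans ?_
      rw [card_range]
      calc (11 + 1) * (n * (2 * (univ.filter fun v => ∃ c, a u c v ≠ 0).card)) ≤
          (11 + 1) * (n * (2 * kB1 k B)) := by
            apply Nat.mul_le_mul_left
            apply Nat.mul_le_mul_left
            exact Nat.mul_le_mul_left _ (hc1 u)
        _ = 24 * n * kB1 k B := by ring)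
    (by
      intro c v
      refine (Finset.card_le_card (t := (univ.filter fun u => ∃ c, a u c v ≠ 0) ∪
          (match cx (om c) v with
            | some y => univ.filter fun u => ∃ c, a u c y ≠ 0
            | none => ∅)) ?_).trans ((Finset.card_union_le _ _).trans ?_)
      · intro u hu
        rw [mem_filter] at hu
        obtain ⟨_, t, _, ht⟩ := hu
        rw [mem_union]
        rcases gco_ne (kτ k) om 11 (a u) t c v ht with h | ⟨y, h, h'⟩
        · left
          rw [mem_filter]
          exact ⟨mem_univ _, c, h⟩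
        · right
          rw [h]
          simp only [mem_filter, mem_univ, true_and]
          exact ⟨c, h'⟩
      have e4 := hc2 v
      cases hx : cx (om c) v with
      | none => simp only [card_empty]; omega
      | some y =>
        have e5 := hc2 y
        simp only
        omega)
    (by
      have := n3.deg
      rw [mul_assoc] at this
      exact this) n2.e4
  obtain ⟨D, hD, hwhy⟩ := hFIN V n C (kd s eps) (kT k) (kL k) (kL0 k) 11 (kM B) (kτ k) om κ hok
    (fun _ _ => rfl) n1.T1 (by unfold kM; omega) hdis hom.old rfl n1.mono (by norm_num)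
    hom.D hom.Jt hom.Jh hom.dO hom.dI hκ
  refine ⟨D, hD, ?_⟩
  intro u
  refine le_trans ?_ n4.tot
  have t1 := hom.l1 u
  have t2 := hom.l2 u
  have t3 := hκX u
  have key : ∀ c, (∑ v, a u c v * (if lose C D c v then (1 : ℝ) else 0)) ≤
      F1 (kτ k 0) (a u c) (om c) + (∑ v, a u c v * (if dup om c v then 1 else 0)) +
      ∑ t ∈ range (11 + 1), ∑ v', gco (kτ k) om 11 (a u) t c v' *
        (if κ t c v' = true then 1 else 0) := by
    intro c
    have e1 := coin_loss (kτ k) om 11 (a u) (ha.a0 u) κ c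
    refine le_trans ?_ (add_le_add le_rfl e1)
    unfold F1
    rw [← Finset.sum_add_distrib, ← Finset.sum_add_distrib]
    apply Finset.sum_le_sum
    intro v _
    rw [← mul_add, ← mul_add]
    apply mul_le_mul_of_nonneg_left _ (ha.a0 u c v)
    have hw := hwhy c v
    by_cases hl : lose C D c v
    · rw [if_pos hl]
      rcases hw hl with h | h | h
      · rw [if_pos h]
        have g1 : (0 : ℝ) ≤ if dup om c v then 1 else 0 := by split_ifs <;> norm_num
        have g2 : (0 : ℝ) ≤ if (∃ t, t ≤ 11 ∧ κ t c v = true ∧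
            (t = 11 ∨ Iv (kτ k t) (kτ k (t + 1)) (om c) v)) ∨
          (∃ t v', t ≤ 11 ∧ cx (om c) v' = some v ∧ κ t c v' = true ∧
            (t = 11 ∨ Iv (kτ k t) (kτ k (t + 1)) (om c) v)) then 1 else 0 := by
          split_ifs <;> norm_num
        linarith
      · have h' : dup om c v := h
        rw [if_pos h']
        have g1 : (0 : ℝ) ≤ if Dv (om c) v ∨ Jt (kτ k 0) (om c) v ∨ Jh (kτ k 0) (om c) v
          then 1 else 0 := by split_ifs <;> norm_num
        have g2 : (0 : ℝ) ≤ if (∃ t, t ≤ 11 ∧ κ t c v = true ∧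
            (t = 11 ∨ Iv (kτ k t) (kτ k (t + 1)) (om c) v)) ∨
          (∃ t v', t ≤ 11 ∧ cx (om c) v' = some v ∧ κ t c v' = true ∧
            (t = 11 ∨ Iv (kτ k t) (kτ k (t + 1)) (om c) v)) then 1 else 0 := by
          split_ifs <;> norm_num
        linarith
      · rw [if_pos h]
        have g1 : (0 : ℝ) ≤ if Dv (om c) v ∨ Jt (kτ k 0) (om c) v ∨ Jh (kτ k 0) (om c) v
          then 1 else 0 := by split_ifs <;> norm_num
        have g2 : (0 : ℝ) ≤ if dup om c v then 1 else 0 := by split_ifs <;> norm_num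
        linarith
    · rw [if_neg hl]
      have g1 : (0 : ℝ) ≤ if Dv (om c) v ∨ Jt (kτ k 0) (om c) v ∨ Jh (kτ k 0) (om c) v
        then 1 else 0 := by split_ifs <;> norm_num
      have g2 : (0 : ℝ) ≤ if dup om c v then 1 else 0 := by split_ifs <;> norm_num
      have g3 : (0 : ℝ) ≤ if (∃ t, t ≤ 11 ∧ κ t c v = true ∧
          (t = 11 ∨ Iv (kτ k t) (kτ k (t + 1)) (om c) v)) ∨
        (∃ t v', t ≤ 11 ∧ cx (om c) v' = some v ∧ κ t c v' = true ∧
          (t = 11 ∨ Iv (kτ k t) (kτ k (t + 1)) (om c) v)) then 1 else 0 := by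
        split_ifs <;> norm_num
      linarith
  calc (∑ c, ∑ v, a u c v * (if lose C D c v then (1 : ℝ) else 0)) ≤
      ∑ c, (F1 (kτ k 0) (a u c) (om c) + (∑ v, a u c v * (if dup om c v then 1 else 0)) +
        ∑ t ∈ range (11 + 1), ∑ v', gco (kτ k) om 11 (a u) t c v' *
          (if κ t c v' = true then 1 else 0)) := Finset.sum_le_sum fun c _ => key c
    _ = (∑ c, F1 (kτ k 0) (a u c) (om c)) +
        (∑ c, ∑ v, a u c v * (if dup om c v then 1 else 0)) +
        ∑ t ∈ range (11 + 1), ∑ c, ∑ v', gco (kτ k) om 11 (a u) t c v' *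
          (if κ t c v' = true then 1 else 0) := by
        rw [Finset.sum_add_distrib, Finset.sum_add_distrib, Finset.sum_comm (s := univ)
          (t := range (11 + 1))]
    _ ≤ _ := by linarith

end

end Pool.Agent.C4K.H7
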