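import Pool.Agent.C4K.StNum

/-!
# Assembly of WALKS
-/

set_option autoImplicit false
set_option linter.unusedSectionVars false

namespace Pool.Agent.C4K.H7

open Finset Cl
open scoped Classical

noncomputable section

variable {V : Type} [Fintype V]

/-- the good vertices -/
def gd {n : ℕ} {C : Fin n → Cl V} {T : ℕ} (L K0 : ℕ) (v : V) : Set (Cf C T) :=
  {om | ∀ c, ∀ u ∈ nod L (om c) v, mult (om c) u < K0}

/-- the basic bad events -/
def base {n : ℕ} (C : Fin n → Cl V) (T : ℕ) (m0 : ℕ) (τ m : ℕ → ℕ) :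
    Fin 5 ⊕ Fin 11 → V → Set (Cf C T)
  | .inl 0, v => evC (fun _ => {om | Dv om v}) m0
  | .inl 1, v => evC (fun _ => {om | Jt (τ 0) om v}) m0
  | .inl 2, v => evC (fun _ => {om | Jh (τ 0) om v}) m0
  | .inl 3, v => dupO m0 v
  | .inl 4, v => dupI m0 v
  | .inr a, v => evC (fun _ => {om | Iv (τ a) (τ (a + 1)) om v}) (m a)

lemma evC_congr {n : ℕ} {C : Fin n → Cl V} {T : ℕ} (X : ∀ c, Set ((C c).Wk T → Bool)) (m : ℕ)
    (om om' : Cf C T) (h : ∀ c, om' c ∈ X c ↔ om c ∈ X c) : om' ∈ evC X m ↔ om ∈ evC X m := by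
  unfold evC
  simp only [Set.mem_ofPred_eq]
  have : (univ.filter fun c => om' c ∈ X c) = univ.filter fun c => om c ∈ X c := by
    ext c
    simp only [mem_filter, mem_univ, true_and]
    exact h c
  rw [this]

/-- the multiplicity of a node which has been read -/
lemma mult_agr {C : Cl V} {T L : ℕ} (om om' : C.Wk T → Bool) (v u : V)
    (h : ∀ w : C.Wk T, w.meets (nod L om v) → om' w = om w) (hu : u ∈ nod L om v) :
    mult om' u = mult om u := by
  unfold mult
  congr 1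
  ext w
  simp only [mem_filter, mem_univ, true_and]
  constructor
  · rintro ⟨h1, h2⟩
    refine ⟨?_, h2⟩
    rw [← h w]
    · exact h1
    · obtain ⟨i, hi, hiu⟩ := h2
      exact ⟨i, hi, by rw [hiu]; exact hu⟩
  · rintro ⟨h1, h2⟩
    refine ⟨?_, h2⟩
    rw [h w]
    · exact h1
    · obtain ⟨i, hi, hiu⟩ := h2
      exact ⟨i, hi, by rw [hiu]; exact hu⟩

lemma gd_agr {n : ℕ} {C : Fin n → Cl V} {T L K0 : ℕ} (hN : ∀ c, Nds (C c) T L)
    (om om' : Cf C T) (v : V) (h : agr L om om' v) :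
    om' ∈ gd L K0 v ↔ om ∈ gd L K0 v := by
  unfold gd
  simp only [Set.mem_ofPred_eq]
  apply forall_congr'
  intro c
  have h1 := (hN c).stop (om c) (om' c) v (h c)
  rw [h1]
  apply forall₂_congr
  intro u hu
  rw [mult_agr (om c) (om' c) v u (h c) hu]

lemma dupO_agr {n : ℕ} {C : Fin n → Cl V} {T L : ℕ} (hN : ∀ c, Nds (C c) T L)
    (om om' : Cf C T) (v : V) (h : agr L om om' v) (m : ℕ) :
    om' ∈ dupO m v ↔ om ∈ dupO m v := by
  have h1 : ∀ c y, lnk (om' c) v y ↔ lnk (om c) v y := fun c y =>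
    (hN c).lo (om c) (om' c) v (h c) y
  unfold dupO
  simp only [Set.mem_ofPred_eq, h1]

lemma dupI_agr {n : ℕ} {C : Fin n → Cl V} {T L : ℕ} (hN : ∀ c, Nds (C c) T L)
    (om om' : Cf C T) (v : V) (h : agr L om om' v) (m : ℕ) :
    om' ∈ dupI m v ↔ om ∈ dupI m v := by
  have h1 : ∀ c x, lnk (om' c) x v ↔ lnk (om c) x v := fun c x =>
    (hN c).li (om c) (om' c) v (h c) x
  unfold dupI
  simp only [Set.mem_ofPred_eq, h1]

lemma base_agr {n : ℕ} {C : Fin n → Cl V} {T L : ℕ} (hN : ∀ c, Nds (C c) T L) (m0 : ℕ)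
    (τ m : ℕ → ℕ) (hτ : ∀ a, a ≤ 11 → τ a ≤ L) (om om' : Cf C T) (v : V) (h : agr L om om' v)
    (t : Fin 5 ⊕ Fin 11) : om' ∈ base C T m0 τ m t v ↔ om ∈ base C T m0 τ m t v := by
  match t with
  | .inl 0 => exact evC_congr _ _ _ _ fun c => (hN c).dv (om c) (om' c) v (h c)
  | .inl 1 => exact evC_congr _ _ _ _ fun c => (hN c).jt (om c) (om' c) v (h c) _ (hτ 0 (by omega))
  | .inl 2 => exact evC_congr _ _ _ _ fun c => (hN c).jh (om c) (om' c) v (h c) _ (hτ 0 (by omega))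
  | .inl 3 => exact dupO_agr hN om om' v h m0
  | .inl 4 => exact dupI_agr hN om om' v h m0
  | .inr a => exact evC_congr _ _ _ _ fun c =>
      (hN c).iv (om c) (om' c) v (h c) _ _ (hτ _ (by have := a.2; omega))

lemma qq_prob {W : Type} [Fintype W] [DecidableEq W] {p : ℝ} (h0 : 0 ≤ p) (h1 : p ≤ 1) :
    LLLA.IsProb (W := W) (α := fun _ => Bool) (qq p) := by
  refine ⟨fun w a => ?_, fun w => ?_⟩
  · unfold qq
    split_ifs
    · exact h0
    · linarith
  · simp [qq]

lemma PC_mono {n : ℕ} (C : Fin n → Cl V) (T : ℕ) {p : ℝ} (h0 : 0 ≤ p) (h1 : p ≤ 1)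
    {X Y : Set (Cf C T)} (h : X ⊆ Y) : PC C T p X ≤ PC C T p Y :=
  LLLA.Pr_mono (LLLA.cwt_prob fun _ => qq_prob h0 h1) h

/-- the probability of the basic events, one class fixed -/
lemma base_pr (hPRD : PRDStmt) (hQ23 : Q23Stmt) (hPRC : PRCStmt) (hPRE : PREStmt) {n : ℕ}
    (C : Fin n → Cl V) {k s eps : ℝ} (hNU : Nu2 k n s eps)
    (hpar : ∀ c, Par (C c) (kd s eps) (kT k) (kp k s) (kz k) (kr k)) (hτ : ∀ a, 1 ≤ kτ k a)
    (t : Fin 5 ⊕ Fin 11) (v : V) (c : Fin n) (om : Cf C (kT k)) :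
    PC C (kT k) (kp k s) {et | fixc c om et ∈
      base C (kT k) 100000 (kτ k) (km k n (kd s eps)) t v} ≤ kε k := by
  have hp0 : 0 ≤ kp k s := (hpar c).p0.le
  have hp1 : kp k s ≤ 1 := (hpar c).ph.trans (by norm_num)
  match t with
  | .inl 0 =>
    refine (hPRC V n C (kT k) (kp k s) hp0 hp1 _ (n * (4 * kz k + 12 * kr k ^ 2)) 99999
      (by norm_num) ?_ c om).trans hNU.D
    calc (∑ c, (C c).Pr (kT k) (kp k s) {om | Dv om v}) ≤
        ∑ _c : Fin n, (4 * kz k + 12 * kr k ^ 2) :=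
          Finset.sum_le_sum fun c _ => hPRD V (C c) _ _ _ _ _ (hpar c) v
      _ = n * (4 * kz k + 12 * kr k ^ 2) := by
        rw [Finset.sum_const, Finset.card_univ, Fintype.card_fin, nsmul_eq_mul]
  | .inl 1 =>
    refine (hPRC V n C (kT k) (kp k s) hp0 hp1 _ (n * (20 * kr k * (kτ k 0 + 1) / kd s eps))
      99999 (by norm_num) ?_ c om).trans hNU.J
    calc (∑ c, (C c).Pr (kT k) (kp k s) {om | Jt (kτ k 0) om v}) ≤
        ∑ _c : Fin n, (20 * kr k * (kτ k 0 + 1) / kd s eps) :=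
          Finset.sum_le_sum fun c _ => (hQ23 V (C c) _ _ _ _ _ (hpar c) v).1 _
      _ = n * (20 * kr k * (kτ k 0 + 1) / kd s eps) := by simp
  | .inl 2 =>
    refine (hPRC V n C (kT k) (kp k s) hp0 hp1 _ (n * (20 * kr k * (kτ k 0 + 1) / kd s eps))
      99999 (by norm_num) ?_ c om).trans hNU.J
    calc (∑ c, (C c).Pr (kT k) (kp k s) {om | Jh (kτ k 0) om v}) ≤
        ∑ _c : Fin n, (20 * kr k * (kτ k 0 + 1) / kd s eps) :=
          Finset.sum_le_sum fun c _ => (hQ23 V (C c) _ _ _ _ _ (hpar c) v).2.1 _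
      _ = n * (20 * kr k * (kτ k 0 + 1) / kd s eps) := by simp
  | .inl 3 =>
    exact ((hPRE V n C _ _ _ _ _ hpar v 99999 (by norm_num) c om).1).trans hNU.dup
  | .inl 4 =>
    exact ((hPRE V n C _ _ _ _ _ hpar v 99999 (by norm_num) c om).2).trans hNU.dup
  | .inr a =>
    have hm : km k n (kd s eps) a = (km k n (kd s eps) a - 1) + 1 := by
      have : 100000 ≤ km k n (kd s eps) a := by unfold km; omega
      omega
    have h1 : 1 ≤ km k n (kd s eps) a - 1 := by
      have : 100000 ≤ km k n (kd s eps) a := by unfold km; omega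
      omega
    show PC C (kT k) (kp k s) {et | fixc c om et ∈
      evC (fun _ => {om | Iv (kτ k a) (kτ k (a + 1)) om v}) (km k n (kd s eps) a)} ≤ kε k
    rw [hm]
    refine (hPRC V n C (kT k) (kp k s) hp0 hp1 _ (n * kq k (kd s eps) (kτ k (a + 1))) _
      h1 ?_ c om).trans (hNU.I a a.2)
    calc (∑ c, (C c).Pr (kT k) (kp k s) {om | Iv (kτ k a) (kτ k (a + 1)) om v}) ≤
        ∑ _c : Fin n, kq k (kd s eps) (kτ k (a + 1)) :=
          Finset.sum_le_sum fun c _ =>
            (hQ23 V (C c) _ _ _ _ _ (hpar c) v).2.2 _ _ (hτ _)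
      _ = n * kq k (kd s eps) (kτ k (a + 1)) := by simp

lemma tau_le {k s eps : ℝ} (h : Nu1 k s eps) : ∀ a, a ≤ 11 → kτ k a ≤ kL k := by
  have h1 : ∀ j, j ≤ 11 → kτ k (11 - j) ≤ kτ k 11 := by
    intro j
    induction j with
    | zero => intro _; exact le_rfl
    | succ j ih =>
      intro hj
      have h2 := ih (by omega)
      have h3 := h.mono (11 - (j + 1)) (by omega)
      have h4 : 11 - (j + 1) + 1 = 11 - j := by omega
      rw [h4] at h3
      exact h3.trans h2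
  intro a ha
  have := h1 (11 - a) (by omega)
  have h5 : 11 - (11 - a) = a := by omega
  rw [h5] at this
  exact this

/-- **Assembly of WALKS.** -/
theorem wal (hNOD : NODStmt) (hPRD : PRDStmt) (hQ23 : Q23Stmt) (hQ6 : Q6Stmt) (hPRC : PRCStmt)
    (hPRE : PREStmt) (hSUM : SUMStmt) (hISE : ISEStmt) (hCOI : COIStmt) (hFIN : FINStmt)
    (hNU1 : NU1Stmt) (hNU2 : NU2Stmt) (hNU3 : NU3Stmt) : WALKSStmt := by
  obtain ⟨k1, h1⟩ := hNU1
  obtain ⟨k2, h2⟩ := hNU2
  obtain ⟨k3, h3⟩ := hNU3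
  refine ⟨max k1 (max k2 k3), 12 * 100000, ?_⟩
  intro V _ N P n f M k s eps hk hNH hN hPN hinj hfN hdis hM hout hinn hW0 hMK
  have n1 := h1 k n s eps ((le_max_left _ _).trans hk) hNH
  have n2 := h2 k n s eps (((le_max_left _ _).trans (le_max_right _ _)).trans hk) hNH
  have n3 := h3 k n s eps (((le_max_right _ _).trans (le_max_right _ _)).trans hk) hNH
  set C : Fin n → Cl V := fun c => ⟨N, P, f c, M c⟩ with hC
  have hok : ∀ c, (C c).Ok (kd s eps) := by
    intro c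
    refine ⟨hN, hPN, fun x y h => (hfN c x y h).1, fun x y h => (hfN c x y h).2, hinj c,
      hM c, n1.d1, fun x => ?_, fun x' => ?_⟩
    · by_cases hx : M c x
      · exact (hout c x hx).2
      · have : (univ.filter fun x' => (C c).gam x x') = ∅ := by
          ext x'
          simp only [mem_filter, mem_univ, true_and, notMem_empty, iff_false]
          exact fun h => hx h.1
        rw [this, Finset.card_empty, Nat.cast_zero]
        linarith [n1.d1]
    · by_cases hx : M c x'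
      · exact (hinn c x' hx).2
      · have : (univ.filter fun x => (C c).gam x x') = ∅ := by
          ext x
          simp only [mem_filter, mem_univ, true_and, notMem_empty, iff_false]
          exact fun h => hx h.2.1
        rw [this, Finset.card_empty, Nat.cast_zero]
        linarith [n1.d1]
  have hpar : ∀ c, Par (C c) (kd s eps) (kT k) (kp k s) (kz k) (kr k) := fun c =>
    ⟨hok c, n1.T1, n1.Td, n1.p0, n1.ph, n1.pd, n1.z0, n1.zr, n1.r1⟩
  have hlow : ∀ c, Low (C c) (ks1 s eps) (kT k) (kp k s) (kz k) := fun c =>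
    ⟨n1.s0, fun x hx => (hout c x hx).1, fun x hx => (hinn c x hx).1, n1.low⟩
  have hNds : ∀ c, Nds (C c) (kT k) (kL k) := fun c => hNOD V (C c) _ _ _ (hok c) n1.L
  have hL0 : ∀ c x m, 1 ≤ m → it (C c).f m x = some x → kL0 k ≤ m := by
    intro c x m hm hx
    exact Nat.ceil_le.2 (hW0 c x m hm hx)
  choose I hI1 hI2 hI3 hI4 using fun c =>
    hISE V (C c) (kL0 k) (kL1 k) (hinj c) n1.L1 (hL0 c) (hMK c)
  obtain ⟨rel, hrel⟩ : ∃ rel : Fin n → V → Prop, ∀ c v,
      rel c v ↔ ∀ j, j < kL0 k → it (C c).f j v ≠ none := ⟨_, fun _ _ => Iff.rfl⟩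
  have hp0 : 0 ≤ kp k s := n1.p0.le
  have hp1 : kp k s ≤ 1 := n1.ph.trans (by norm_num)
  obtain ⟨om, hA, hK, hR⟩ := hSUM V n C (kd s eps) (kT k) (kp k s) (kz k) (kr k) (kL k) 100
    hNH.n1 hpar n1.L n1.TL (by norm_num) (Fin 5 ⊕ Fin 11)
    (fun t v => base C (kT k) 100000 (kτ k) (km k n (kd s eps)) t v ∩ gd (kL k) 100 v)
    (kε k) n2.e0 (by linarith [n2.e4])
    (by
      intro t v om om' h
      simp only [Set.mem_inter_iff]
      rw [base_agr hNds 100000 (kτ k) (km k n (kd s eps)) (tau_le n1) om om' v h t,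
        gd_agr hNds om om' v h])
    (by
      intro t v om h
      exact h.2)
    (by
      intro t v c om
      refine le_trans (PC_mono C (kT k) hp0 hp1 ?_)
        (base_pr hPRD hQ23 hPRC hPRE C n2 hpar n1.tau1 t v c om)
      intro et h
      exact h.1)
    I rel (kL0 k) (kε6 k) (Real.exp_pos _).le n2.e6 (fun c v => hI3 c v)
    (by
      intro c u
      refine le_trans (Finset.card_le_card ?_) (hI4 c u)
      intro v hv
      rw [mem_filter] at hv ⊢
      exact ⟨hv.1, hv.2.2⟩)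
    (by
      intro c v hv
      have hc : (I c v).card = kL0 k / kL1 k := hI2 c v ((hrel c v).1 hv)
      have := hQ6 V (C c) _ _ _ _ _ _ (hpar c) (hlow c) (I c v)
        (fun u hu => (hI1 c v u hu).1) (by rw [hc]; exact n1.h1) (by rw [hc]; exact n1.h2)
      rw [hc] at this
      exact this)
    (by
      have := n2.sum
      simpa using this)
  have hbase : ∀ t v, om ∉ base C (kT k) 100000 (kτ k) (km k n (kd s eps)) t v := by
    intro t v h
    exact hA t v ⟨h, fun c u _ => hK c u⟩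
  have hlt : ∀ (X : ∀ c, Set ((C c).Wk (kT k) → Bool)) (m : ℕ), om ∉ evC X m →
      (univ.filter fun c => om c ∈ X c).card ≤ m := by
    intro X m h
    unfold evC at h
    simp only [Set.mem_ofPred_eq, not_le] at h
    exact h.le
  obtain ⟨κ, hκ⟩ := hCOI V n C (kd s eps) (kT k) (kL k) (kL1 k) 100 11 100000 (kτ k)
    (km k n (kd s eps)) (kπ k) (kε k) om hok n1.L n1.TL n1.L1 (by norm_num) hMK rfl n1.mono hK
    (by
      intro a ha v
      exact hlt _ _ (hbase (.inr ⟨a, ha⟩) v))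
    (fun a => ⟨n3.p0 a, n3.p1 a⟩) n2.e0 n3.ka n3.kb
    (by
      have := n3.deg
      rw [mul_assoc] at this
      exact this) n2.e4
  obtain ⟨D, hD⟩ := hFIN V n C (kd s eps) (kT k) (kL k) (kL0 k) 11 100000 (kτ k) om κ hok
    (fun _ _ => rfl) n1.T1 (by norm_num) hdis
    (by
      intro c v hv
      obtain ⟨u, hu, hmu⟩ := hR c v ((hrel c v).2 hv)
      obtain ⟨_, j, _, hj⟩ := hI1 c v u hu
      exact ⟨j, u, hj, hmu⟩)
    rfl n1.mono (by norm_num) (fun v => hlt _ _ (hbase (.inl 0) v))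
    (fun v => hlt _ _ (hbase (.inl 1) v)) (fun v => hlt _ _ (hbase (.inl 2) v))
    (fun v => hbase (.inl 3) v) (fun v => hbase (.inl 4) v) hκ
  exact ⟨D, hD⟩

end

end Pool.Agent.C4K.H7
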