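import Pool.Agent.C4K.StNumB
import Pool.Agent.Helper7_C4K.Wal

/-!
# Assembly of WALKS with the linear statistic, part 1: helpers
-/

set_option autoImplicit false
set_option linter.unusedSectionVars false

namespace Pool.Agent.C4K.H7

open Finset Cl
open scoped Classical

noncomputable section

variable {V : Type} [Fintype V]

/-- multiplicities of the nodes of a read set -/
lemma mult_rd {C : Cl V} {T : ℕ} (om om' : C.Wk T → Bool) (S : Finset V)
    (h : ∀ w : C.Wk T, w.meets S → om' w = om w) {u : V} (hu : u ∈ S) :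
    mult om' u = mult om u := by
  unfold mult
  congr 1
  ext w
  simp only [mem_filter, mem_univ, true_and]
  constructor
  · rintro ⟨h1, h2⟩
    refine ⟨?_, h2⟩
    rw [← h w]
    · exact h1
    · obtain ⟨i, hi, hiu⟩ := h2
      exact ⟨i, hi, by rw [hiu]; exact hu⟩
  · rintro ⟨h1, h2⟩
    refine ⟨?_, h2⟩
    rw [h w]
    · exact h1
    · obtain ⟨i, hi, hiu⟩ := h2
      exact ⟨i, hi, by rw [hiu]; exact hu⟩

lemma mult_ins {C : Cl V} {T : ℕ} (om : C.Wk T → Bool) (w : C.Wk T) (u : V) :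
    mult om u ≤ mult (ins om w) u := by
  unfold mult
  apply Finset.card_le_card
  intro w' hw'
  rw [mem_filter] at hw' ⊢
  refine ⟨hw'.1, ?_, hw'.2.2⟩
  unfold ins
  by_cases h : w' = w
  · rw [h, Function.update_self]
  · rw [Function.update_of_ne h]; exact hw'.2.1

/-- the expectation of a weighted number of events -/
lemma E_lin {C : Cl V} {T : ℕ} {p : ℝ} (a : V → ℝ) (Q : V → (C.Wk T → Bool) → Prop)
    [∀ v om, Decidable (Q v om)] :
    C.E T p (fun om => ∑ v, a v * (if Q v om then 1 else 0)) =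
      ∑ v, a v * C.Pr T p {om | Q v om} := by
  unfold Cl.E Cl.Pr
  rw [LLLA.Ex_sum]
  apply Finset.sum_congr rfl
  intro v _
  rw [LLLA.Ex_const_mul, LLLA.Ex_ite]

lemma E_mono {C : Cl V} {T : ℕ} {p : ℝ} (h0 : 0 ≤ p) (h1 : p ≤ 1)
    {f g : (C.Wk T → Bool) → ℝ} (h : ∀ om, f om ≤ g om) : C.E T p f ≤ C.E T p g :=
  LLLA.Ex_mono (qq_prob h0 h1) h

lemma Pr_mono {C : Cl V} {T : ℕ} {p : ℝ} (h0 : 0 ≤ p) (h1 : p ≤ 1)
    {X Y : Set (C.Wk T → Bool)} (h : X ⊆ Y) : C.Pr T p X ≤ C.Pr T p Y :=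
  LLLA.Pr_mono (qq_prob h0 h1) h

lemma Pr_union {C : Cl V} {T : ℕ} {p : ℝ} (h0 : 0 ≤ p) (h1 : p ≤ 1)
    (X Y : Set (C.Wk T → Bool)) : C.Pr T p (X ∪ Y) ≤ C.Pr T p X + C.Pr T p Y :=
  LLLA.Pr_union_le (qq_prob h0 h1) X Y

lemma Pr_empty {C : Cl V} {T : ℕ} {p : ℝ} : C.Pr T p ∅ = 0 := by
  unfold Cl.Pr LLLA.Pr
  simp

/-- losses of the first kind, weighted -/
def F1 {C : Cl V} {T : ℕ} (t0 : ℕ) (a : V → ℝ) (om : C.Wk T → Bool) : ℝ :=
  ∑ v, a v * (if Dv om v ∨ Jt t0 om v ∨ Jh t0 om v then 1 else 0)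

/-- closures at a scale, weighted -/
def F2 {C : Cl V} {T : ℕ} (t1 t2 : ℕ) (a : V → ℝ) (om : C.Wk T → Bool) : ℝ :=
  ∑ v, a v * (if Iv t1 t2 om v then 1 else 0)

lemma F1_nonneg {C : Cl V} {T : ℕ} (t0 : ℕ) (a : V → ℝ) (ha : ∀ v, 0 ≤ a v)
    (om : C.Wk T → Bool) : 0 ≤ F1 t0 a om :=
  Finset.sum_nonneg fun v _ => mul_nonneg (ha v) (by split_ifs <;> norm_num)

lemma F2_nonneg {C : Cl V} {T : ℕ} (t1 t2 : ℕ) (a : V → ℝ) (ha : ∀ v, 0 ≤ a v)
    (om : C.Wk T → Bool) : 0 ≤ F2 t1 t2 a om :=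
  Finset.sum_nonneg fun v _ => mul_nonneg (ha v) (by split_ifs <;> norm_num)

lemma F2_le {C : Cl V} {T : ℕ} (t1 t2 : ℕ) (a : V → ℝ) (ha : ∀ v, 0 ≤ a v)
    (hs : (∑ v, a v) ≤ 100) (om : C.Wk T → Bool) : F2 t1 t2 a om ≤ 100 := by
  refine le_trans (Finset.sum_le_sum fun v _ => ?_) hs
  split_ifs
  · rw [mul_one]
  · rw [mul_zero]; exact ha v

/-- the linear bad events -/
def lin {n : ℕ} (C : Fin n → Cl V) (T : ℕ) (τ : ℕ → ℕ) (X1 b X3 : ℝ) (XI : ℕ → ℝ)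
    (a : Fin n → V → ℝ) : Fin 2 ⊕ Fin 11 → Set (Cf C T)
  | .inl 0 => {om | X1 + b < ∑ c, min (F1 (τ 0) (a c) (om c)) b}
  | .inl 1 => {om | X3 < ∑ c, ∑ v, a c v * (if dup om c v then 1 else 0)}
  | .inr t => {om | XI t + 100 < ∑ c, F2 (τ t) (τ (t + 1)) (a c) (om c)}

lemma lin_agr {n : ℕ} {C : Fin n → Cl V} {T L : ℕ} (hN : ∀ c, Nds (C c) T L) (τ : ℕ → ℕ)
    (X1 b X3 : ℝ) (XI : ℕ → ℝ) (a : Fin n → V → ℝ) (hτ : ∀ t, t ≤ 11 → τ t ≤ L)
    (om om' : Cf C T) (h : ∀ v, (∃ c, a c v ≠ 0) → agr L om om' v) (t : Fin 2 ⊕ Fin 11) :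
    om' ∈ lin C T τ X1 b X3 XI a t ↔ om ∈ lin C T τ X1 b X3 XI a t := by
  match t with
  | .inl 0 =>
    have h1 : ∀ c, F1 (τ 0) (a c) (om' c) = F1 (τ 0) (a c) (om c) := by
      intro c
      unfold F1
      apply Finset.sum_congr rfl
      intro v _
      by_cases hv : a c v = 0
      · rw [hv, zero_mul, zero_mul]
      · have h2 := h v ⟨c, hv⟩ c
        have h3 : (Dv (om' c) v ∨ Jt (τ 0) (om' c) v ∨ Jh (τ 0) (om' c) v) ↔
            (Dv (om c) v ∨ Jt (τ 0) (om c) v ∨ Jh (τ 0) (om c) v) := by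
          rw [(hN c).dv (om c) (om' c) v h2, (hN c).jt (om c) (om' c) v h2 _ (hτ 0 (by omega)),
            (hN c).jh (om c) (om' c) v h2 _ (hτ 0 (by omega))]
        simp only [h3]
    show (X1 + b < ∑ c, min (F1 (τ 0) (a c) (om' c)) b) ↔
      (X1 + b < ∑ c, min (F1 (τ 0) (a c) (om c)) b)
    simp only [h1]
  | .inl 1 =>
    have h1 : ∀ c v, a c v * (if dup om' c v then (1 : ℝ) else 0) =
        a c v * (if dup om c v then 1 else 0) := by
      intro c v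
      by_cases hv : a c v = 0
      · rw [hv, zero_mul, zero_mul]
      · have h2 := h v ⟨c, hv⟩
        have h3 : ∀ c y, lnk (om' c) v y ↔ lnk (om c) v y := fun c y =>
          (hN c).lo (om c) (om' c) v (h2 c) y
        have h4 : ∀ c x, lnk (om' c) x v ↔ lnk (om c) x v := fun c x =>
          (hN c).li (om c) (om' c) v (h2 c) x
        have h5 : dup om' c v ↔ dup om c v := by
          unfold dup
          simp only [h3, h4]
        simp only [h5]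
    show (X3 < ∑ c, ∑ v, a c v * (if dup om' c v then 1 else 0)) ↔
      (X3 < ∑ c, ∑ v, a c v * (if dup om c v then 1 else 0))
    simp only [h1]
  | .inr t =>
    have h1 : ∀ c, F2 (τ t) (τ (t + 1)) (a c) (om' c) = F2 (τ t) (τ (t + 1)) (a c) (om c) := by
      intro c
      unfold F2
      apply Finset.sum_congr rfl
      intro v _
      by_cases hv : a c v = 0
      · rw [hv, zero_mul, zero_mul]
      · have h2 := h v ⟨c, hv⟩ c
        have h3 := (hN c).iv (om c) (om' c) v h2 (τ t) (τ (t + 1))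
          (hτ _ (by have := t.2; omega))
        simp only [h3]
    show (XI t + 100 < ∑ c, F2 (τ t) (τ (t + 1)) (a c) (om' c)) ↔
      (XI t + 100 < ∑ c, F2 (τ t) (τ (t + 1)) (a c) (om c))
    simp only [h1]

/-- expectation of the losses of the first kind -/
lemma E_F1 (hPRD : PRDStmt) (hQ23 : Q23Stmt) {C : Cl V} {d : ℝ} {T : ℕ} {p z r : ℝ}
    (hp : Par C d T p z r) (t0 : ℕ) (a : V → ℝ) (ha : ∀ v, 0 ≤ a v) (hs : (∑ v, a v) ≤ 100) :
    C.E T p (F1 t0 a) ≤ 100 * (4 * z + 12 * r ^ 2 + 2 * (20 * r * (t0 + 1) / d)) := by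
  have hp0 : 0 ≤ p := hp.p0.le
  have hp1 : p ≤ 1 := hp.ph.trans (by norm_num)
  have h1 : C.E T p (F1 t0 a) =
      ∑ v, a v * C.Pr T p {om | Dv om v ∨ Jt t0 om v ∨ Jh t0 om v} :=
    E_lin a fun v om => Dv om v ∨ Jt t0 om v ∨ Jh t0 om v
  have h2 : ∀ v, C.Pr T p {om | Dv om v ∨ Jt t0 om v ∨ Jh t0 om v} ≤
      4 * z + 12 * r ^ 2 + 2 * (20 * r * (t0 + 1) / d) := by
    intro v
    have e1 := hPRD V C d T p z r hp v
    have e2 := (hQ23 V C d T p z r hp v).1 t0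
    have e3 := (hQ23 V C d T p z r hp v).2.1 t0
    have e4 : C.Pr T p {om | Dv om v ∨ Jt t0 om v ∨ Jh t0 om v} ≤
        C.Pr T p ({om | Dv om v} ∪ ({om | Jt t0 om v} ∪ {om | Jh t0 om v})) := by
      apply Pr_mono hp0 hp1
      intro om h
      exact h
    have e5 := Pr_union hp0 hp1 {om : C.Wk T → Bool | Dv om v}
      ({om | Jt t0 om v} ∪ {om | Jh t0 om v})
    have e6 := Pr_union hp0 hp1 {om : C.Wk T → Bool | Jt t0 om v} {om | Jh t0 om v}
    linarith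
  have h3 : 0 ≤ 4 * z + 12 * r ^ 2 + 2 * (20 * r * (t0 + 1) / d) := by
    have hr : 0 ≤ r := by
      rw [← hp.zr]
      have := hp.z0
      positivity
    have := hp.z0
    have hd : 0 < d := lt_of_lt_of_le one_pos hp.ok.one_le
    positivity
  rw [h1]
  calc (∑ v, a v * C.Pr T p {om | Dv om v ∨ Jt t0 om v ∨ Jh t0 om v}) ≤
      ∑ v, a v * (4 * z + 12 * r ^ 2 + 2 * (20 * r * (t0 + 1) / d)) :=
        Finset.sum_le_sum fun v _ => mul_le_mul_of_nonneg_left (h2 v) (ha v)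
    _ = (∑ v, a v) * (4 * z + 12 * r ^ 2 + 2 * (20 * r * (t0 + 1) / d)) := by
        rw [Finset.sum_mul]
    _ ≤ _ := mul_le_mul_of_nonneg_right hs h3

lemma E_F2 (hQ23 : Q23Stmt) {C : Cl V} {d : ℝ} {T : ℕ} {p z r : ℝ}
    (hp : Par C d T p z r) (t1 t2 : ℕ) (ht : 1 ≤ t2) (a : V → ℝ) (ha : ∀ v, 0 ≤ a v)
    (hs : (∑ v, a v) ≤ 100) :
    C.E T p (F2 t1 t2 a) ≤
      100 * (2 * (r * (30 * (t2 * Real.sqrt t2) / d + 16 * T * (t2 : ℝ) ^ 2 / d ^ 2))) := by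
  have h1 : C.E T p (F2 t1 t2 a) = ∑ v, a v * C.Pr T p {om | Iv t1 t2 om v} :=
    E_lin a fun v om => Iv t1 t2 om v
  have h3 : 0 ≤ 2 * (r * (30 * (t2 * Real.sqrt t2) / d + 16 * T * (t2 : ℝ) ^ 2 / d ^ 2)) := by
    have hr : 0 ≤ r := by
      rw [← hp.zr]
      have := hp.z0
      positivity
    have hd : 0 < d := lt_of_lt_of_le one_pos hp.ok.one_le
    positivity
  rw [h1]
  calc (∑ v, a v * C.Pr T p {om | Iv t1 t2 om v}) ≤
      ∑ v, a v * (2 * (r * (30 * (t2 * Real.sqrt t2) / d + 16 * T * (t2 : ℝ) ^ 2 / d ^ 2))) :=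
        Finset.sum_le_sum fun v _ =>
          mul_le_mul_of_nonneg_left ((hQ23 V C d T p z r hp v).2.2 t1 t2 ht) (ha v)
    _ = (∑ v, a v) *
        (2 * (r * (30 * (t2 * Real.sqrt t2) / d + 16 * T * (t2 : ℝ) ^ 2 / d ^ 2))) := by
        rw [Finset.sum_mul]
    _ ≤ _ := mul_le_mul_of_nonneg_right hs h3

/-- the probability of the linear events, one class fixed -/
lemma lin_pr (hPRD : PRDStmt) (hQ23 : Q23Stmt) (hLI2 : LI2Stmt) (hLI3 : LI3Stmt) {n B : ℕ}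
    (C : Fin n → Cl V) {k s eps : ℝ} (h4 : NuB4 B k n s eps)
    (hpar : ∀ c, Par (C c) (kd s eps) (kT k) (kp k s) (kz k) (kr k)) (hτ : ∀ a, 1 ≤ kτ k a)
    (a : Fin n → V → ℝ) (a0 : ∀ c v, 0 ≤ a c v) (a1 : ∀ c v, a c v ≤ kwm k)
    (s1 : ∀ c, (∑ v, a c v) ≤ 100)
    (c1 : (univ.filter fun v => ∃ c, a c v ≠ 0).card ≤ kB1 k B)
    (t : Fin 2 ⊕ Fin 11) (c : Fin n) (om : Cf C (kT k)) :
    PC C (kT k) (kp k s) {et | fixc c om et ∈ lin C (kT k) (kτ k) (kX k) (kb k)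
      ((4 * ((kN2 n : ℝ) + 1)) * kX3 k) (kXI k n (kd s eps)) a t} ≤ kεB k B := by
  have hp0 : 0 ≤ kp k s := (hpar c).p0.le
  have hp1 : kp k s ≤ 1 := (hpar c).ph.trans (by norm_num)
  match t with
  | .inl 0 =>
    refine (hLI2 V n C (kT k) (kp k s) hp0 hp1 (fun c om => min (F1 (kτ k 0) (a c) om) (kb k))
      (kb k) (kX k) h4.b0 ?_ ?_ c om).trans h4.l1e
    · intro c om
      exact ⟨le_min (F1_nonneg _ _ (a0 c) om) h4.b0.le, min_le_right _ _⟩
    · refine le_trans ?_ h4.l1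
      apply mul_le_mul_of_nonneg_left _ (by norm_num)
      calc (∑ c, (C c).E (kT k) (kp k s) fun om => min (F1 (kτ k 0) (a c) om) (kb k)) ≤
          ∑ _c : Fin n, (100 * (4 * kz k + 12 * kr k ^ 2 +
            2 * (20 * kr k * (kτ k 0 + 1) / kd s eps))) := by
            apply Finset.sum_le_sum
            intro c _
            refine le_trans (E_mono hp0 hp1 fun om => min_le_left _ _) ?_
            exact E_F1 hPRD hQ23 (hpar c) _ _ (a0 c) (s1 c)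
        _ = _ := by rw [Finset.sum_const, Finset.card_univ, Fintype.card_fin, nsmul_eq_mul]
  | .inl 1 =>
    refine (hLI3 V n C (kd s eps) (kT k) (kp k s) (kz k) (kr k) hpar a (kwm k) (kY k) (kX3 k)
      (kN2 n) (kM B) (kB1 k B) h4.w0 (fun c v => ⟨a0 c v, a1 c v⟩) s1 c1
      (Nat.le_pow_clog (by norm_num) n) (by unfold kM; omega) h4.X3 h4.Y1 h4.y1 h4.y2
      c om).trans h4.y3
  | .inr t =>
    refine (hLI2 V n C (kT k) (kp k s) hp0 hp1
      (fun c om => F2 (kτ k t) (kτ k (t + 1)) (a c) om) 100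
      (kXI k n (kd s eps) t) (by norm_num) ?_ ?_ c om).trans (h4.lIe t t.2)
    · intro c om
      exact ⟨F2_nonneg _ _ _ (a0 c) om, F2_le _ _ _ (a0 c) (s1 c) om⟩
    · refine le_trans ?_ (h4.lI t t.2)
      apply mul_le_mul_of_nonneg_left _ (by norm_num)
      calc (∑ c, (C c).E (kT k) (kp k s) fun om => F2 (kτ k t) (kτ k (t + 1)) (a c) om) ≤
          ∑ _c : Fin n, (100 * kq k (kd s eps) (kτ k (t + 1))) := by
            apply Finset.sum_le_sum
            intro c _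
            exact E_F2 hQ23 (hpar c) _ _ (hτ _) _ (a0 c) (s1 c)
        _ = _ := by rw [Finset.sum_const, Finset.card_univ, Fintype.card_fin, nsmul_eq_mul]

/-- the basic events, with `B` -/
lemma base_prB (hPRD : PRDStmt) (hQ23 : Q23Stmt) (hPRC : PRCStmt) (hPRE : PREStmt) {n B : ℕ}
    (C : Fin n → Cl V) {k s eps : ℝ} (hNU : NuB2 B k n s eps)
    (hpar : ∀ c, Par (C c) (kd s eps) (kT k) (kp k s) (kz k) (kr k)) (hτ : ∀ a, 1 ≤ kτ k a)
    (t : Fin 5 ⊕ Fin 11) (v : V) (c : Fin n) (om : Cf C (kT k)) :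
    PC C (kT k) (kp k s) {et | fixc c om et ∈
      base C (kT k) (kM B) (kτ k) (kmB k n (kd s eps) B) t v} ≤ kεB k B := by
  have hp0 : 0 ≤ kp k s := (hpar c).p0.le
  have hp1 : kp k s ≤ 1 := (hpar c).ph.trans (by norm_num)
  have hM1 : 1 ≤ kM B - 1 := by unfold kM; omega
  have hM2 : kM B = (kM B - 1) + 1 := by unfold kM; omega
  match t with
  | .inl 0 =>
    show PC C (kT k) (kp k s) {et | fixc c om et ∈ evC (fun _ => {om | Dv om v}) (kM B)} ≤ _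
    rw [hM2]
    refine (hPRC V n C (kT k) (kp k s) hp0 hp1 _ (n * (4 * kz k + 12 * kr k ^ 2)) _
      hM1 ?_ c om).trans hNU.D
    calc (∑ c, (C c).Pr (kT k) (kp k s) {om | Dv om v}) ≤
        ∑ _c : Fin n, (4 * kz k + 12 * kr k ^ 2) :=
          Finset.sum_le_sum fun c _ => hPRD V (C c) _ _ _ _ _ (hpar c) v
      _ = n * (4 * kz k + 12 * kr k ^ 2) := by
        rw [Finset.sum_const, Finset.card_univ, Fintype.card_fin, nsmul_eq_mul]
  | .inl 1 =>
    show PC C (kT k) (kp k s) {et | fixc c om et ∈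
      evC (fun _ => {om | Jt (kτ k 0) om v}) (kM B)} ≤ _
    rw [hM2]
    refine (hPRC V n C (kT k) (kp k s) hp0 hp1 _ (n * (20 * kr k * (kτ k 0 + 1) / kd s eps))
      _ hM1 ?_ c om).trans hNU.J
    calc (∑ c, (C c).Pr (kT k) (kp k s) {om | Jt (kτ k 0) om v}) ≤
        ∑ _c : Fin n, (20 * kr k * (kτ k 0 + 1) / kd s eps) :=
          Finset.sum_le_sum fun c _ => (hQ23 V (C c) _ _ _ _ _ (hpar c) v).1 _
      _ = n * (20 * kr k * (kτ k 0 + 1) / kd s eps) := by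
        rw [Finset.sum_const, Finset.card_univ, Fintype.card_fin, nsmul_eq_mul]
  | .inl 2 =>
    show PC C (kT k) (kp k s) {et | fixc c om et ∈
      evC (fun _ => {om | Jh (kτ k 0) om v}) (kM B)} ≤ _
    rw [hM2]
    refine (hPRC V n C (kT k) (kp k s) hp0 hp1 _ (n * (20 * kr k * (kτ k 0 + 1) / kd s eps))
      _ hM1 ?_ c om).trans hNU.J
    calc (∑ c, (C c).Pr (kT k) (kp k s) {om | Jh (kτ k 0) om v}) ≤
        ∑ _c : Fin n, (20 * kr k * (kτ k 0 + 1) / kd s eps) :=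
          Finset.sum_le_sum fun c _ => (hQ23 V (C c) _ _ _ _ _ (hpar c) v).2.1 _
      _ = n * (20 * kr k * (kτ k 0 + 1) / kd s eps) := by
        rw [Finset.sum_const, Finset.card_univ, Fintype.card_fin, nsmul_eq_mul]
  | .inl 3 =>
    show PC C (kT k) (kp k s) {et | fixc c om et ∈ dupO (kM B) v} ≤ _
    rw [hM2]
    exact ((hPRE V n C _ _ _ _ _ hpar v _ hM1 c om).1).trans hNU.dup
  | .inl 4 =>
    show PC C (kT k) (kp k s) {et | fixc c om et ∈ dupI (kM B) v} ≤ _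
    rw [hM2]
    exact ((hPRE V n C _ _ _ _ _ hpar v _ hM1 c om).2).trans hNU.dup
  | .inr a =>
    have h0 : 2 ≤ kmB k n (kd s eps) B a := by unfold kmB kM; omega
    have hm : kmB k n (kd s eps) B a = (kmB k n (kd s eps) B a - 1) + 1 := by omega
    have h1 : 1 ≤ kmB k n (kd s eps) B a - 1 := by omega
    show PC C (kT k) (kp k s) {et | fixc c om et ∈
      evC (fun _ => {om | Iv (kτ k a) (kτ k (a + 1)) om v}) (kmB k n (kd s eps) B a)} ≤ _
    rw [hm]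
    refine (hPRC V n C (kT k) (kp k s) hp0 hp1 _ (n * kq k (kd s eps) (kτ k (a + 1))) _
      h1 ?_ c om).trans (hNU.I a a.2)
    calc (∑ c, (C c).Pr (kT k) (kp k s) {om | Iv (kτ k a) (kτ k (a + 1)) om v}) ≤
        ∑ _c : Fin n, kq k (kd s eps) (kτ k (a + 1)) :=
          Finset.sum_le_sum fun c _ =>
            (hQ23 V (C c) _ _ _ _ _ (hpar c) v).2.2 _ _ (hτ _)
      _ = n * kq k (kd s eps) (kτ k (a + 1)) := by
        rw [Finset.sum_const, Finset.card_univ, Fintype.card_fin, nsmul_eq_mul]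

end

end Pool.Agent.C4K.H7
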