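import Pool.Agent.Helper7_C4K.Wall

/-!
# Assembly of WALKS with the linear statistic, part 2
-/

set_option autoImplicit false
set_option linter.unusedSectionVars false

namespace Pool.Agent.C4K.H7

open Finset Cl
open scoped Classical

noncomputable section

variable {V : Type} [Fintype V]

/-- cardinalities of filters over sum types -/
lemma card_filter_sum {X Y : Type} [Fintype X] [Fintype Y] (Q : X ⊕ Y → Prop)
    [DecidablePred Q] :
    (univ.filter Q).card = (univ.filter fun x => Q (.inl x)).card +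
      (univ.filter fun y => Q (.inr y)).card := by
  rw [Finset.card_filter, Finset.card_filter, Finset.card_filter, Fintype.sum_sum_type]

/-- vertices whose image lies in a set -/
lemma card_pre {f : V → Option V} (hf : PInj f) (S : Finset V) :
    (univ.filter fun u => ∃ v, f u = some v ∧ v ∈ S).card ≤ S.card := by
  apply Finset.card_le_card_of_injOn (fun u => (f u).getD u)
  · intro u hu
    rw [Finset.mem_coe, mem_filter] at hu
    obtain ⟨_, v, h1, h2⟩ := hu
    rw [Finset.mem_coe]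
    simp only [h1, Option.getD_some]
    exact h2
  · intro u hu u' hu' h
    rw [Finset.mem_coe, mem_filter] at hu hu'
    obtain ⟨_, v, h1, _⟩ := hu
    obtain ⟨_, v', h1', _⟩ := hu'
    simp only [h1, h1', Option.getD_some] at h
    rw [← h] at h1'
    exact hf u u' v h1 h1'

lemma card_spt {C : Cl V} (hf : PInj C.f) (a : V → ℝ) (S : Finset V)
    (hS : ∀ v, a v ≠ 0 → v ∈ S) : (spt C a).card ≤ 2 * S.card := by
  have h1 := card_pre hf S
  have h2 : spt C a ⊆ S ∪ (univ.filter fun u => ∃ v, C.f u = some v ∧ v ∈ S) := by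
    intro u hu
    unfold spt at hu
    rw [mem_filter] at hu
    rw [mem_union, mem_filter]
    rcases hu.2 with h | ⟨v, h, h'⟩
    · exact Or.inl (hS u h)
    · exact Or.inr ⟨mem_univ _, v, h, hS v h'⟩
  have h3 := (Finset.card_le_card h2).trans (Finset.card_union_le _ _)
  omega

/-- centres of the events -/
def vsJ {U : Type} {n : ℕ} (a : U → Fin n → V → ℝ) :
    ((Fin 5 ⊕ Fin 11) × V) ⊕ ((Fin 2 ⊕ Fin 11) × U) → Finset V
  | .inl x => {x.2}
  | .inr x => univ.filter fun v => ∃ c, a x.2 c v ≠ 0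

/-- the events -/
def evJ {U : Type} {n : ℕ} (C : Fin n → Cl V) (T m0 L K0 : ℕ) (τ m : ℕ → ℕ) (X1 b X3 : ℝ)
    (XI : ℕ → ℝ) (a : U → Fin n → V → ℝ) :
    ((Fin 5 ⊕ Fin 11) × V) ⊕ ((Fin 2 ⊕ Fin 11) × U) → Set (Cf C T)
  | .inl x => base C T m0 τ m x.1 x.2 ∩ {om | ∀ v ∈ ({x.2} : Finset V), om ∈ gd L K0 v}
  | .inr x => lin C T τ X1 b X3 XI (a x.2) x.1 ∩
      {om | ∀ v ∈ univ.filter (fun v => ∃ c, a x.2 c v ≠ 0), om ∈ gd L K0 v}

lemma card_vs {U : Type} [Fintype U] {n B1 : ℕ} (a : U → Fin n → V → ℝ) (hB : 1 ≤ B1)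
    (h1 : ∀ u, (univ.filter fun v => ∃ c, a u c v ≠ 0).card ≤ B1) :
    ∀ j, (vsJ a j).card ≤ 30 * B1 := by
  intro j
  match j with
  | .inl x =>
    show ({x.2} : Finset V).card ≤ _
    rw [Finset.card_singleton]
    omega
  | .inr x =>
    show (univ.filter fun v => ∃ c, a x.2 c v ≠ 0).card ≤ _
    have := h1 x.2
    omega

lemma card_centres {U : Type} [Fintype U] {n B1 : ℕ} (a : U → Fin n → V → ℝ) (hB : 1 ≤ B1)
    (h1 : ∀ v, (univ.filter fun u => ∃ c, a u c v ≠ 0).card ≤ B1) (v : V) :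
    (univ.filter fun j => v ∈ vsJ a j).card ≤ 30 * B1 := by
  rw [card_filter_sum]
  have e1 : (univ.filter fun x : (Fin 5 ⊕ Fin 11) × V => v ∈ vsJ a (.inl x)).card ≤ 16 := by
    have : (univ.filter fun x : (Fin 5 ⊕ Fin 11) × V => v ∈ vsJ a (.inl x)) ⊆
        (univ : Finset (Fin 5 ⊕ Fin 11)) ×ˢ {v} := by
      intro x hx
      rw [mem_filter] at hx
      have h2 : v ∈ ({x.2} : Finset V) := hx.2
      rw [mem_singleton] at h2
      rw [mem_product, mem_singleton]
      exact ⟨mem_univ _, h2.symm⟩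
    refine (Finset.card_le_card this).trans ?_
    rw [card_product, card_singleton, mul_one, Finset.card_univ]
    simp
  have e2 : (univ.filter fun x : (Fin 2 ⊕ Fin 11) × U => v ∈ vsJ a (.inr x)).card ≤
      13 * B1 := by
    have : (univ.filter fun x : (Fin 2 ⊕ Fin 11) × U => v ∈ vsJ a (.inr x)) ⊆
        (univ : Finset (Fin 2 ⊕ Fin 11)) ×ˢ (univ.filter fun u => ∃ c, a u c v ≠ 0) := by
      intro x hx
      rw [mem_filter] at hx
      have h2 : v ∈ univ.filter fun v => ∃ c, a x.2 c v ≠ 0 := hx.2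
      rw [mem_filter] at h2
      rw [mem_product, mem_filter]
      exact ⟨mem_univ _, mem_univ _, h2.2⟩
    refine (Finset.card_le_card this).trans ?_
    rw [card_product, Finset.card_univ]
    have h3 : Fintype.card (Fin 2 ⊕ Fin 11) = 13 := by simp
    rw [h3]
    exact Nat.mul_le_mul_left _ (h1 v)
  omega

/-- the one class events -/
def oneX {U : Type} {n : ℕ} (C : Fin n → Cl V) (T K0 : ℕ) (b : ℝ) (I : Fin n → V → Finset V)
    (rel : Fin n → V → Prop) (a : U → Fin n → V → ℝ) (c : Fin n) :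
    V ⊕ U → Set ((C c).Wk T → Bool)
  | .inl v => {om | rel c v ∧ ∀ u ∈ I c v, mult om u = 0}
  | .inr u => {om | b ≤ gst (a u c) om ∧ ∀ x ∈ spt (C c) (a u c), mult om x < K0}

/-- their nodes -/
def oneI {U : Type} {n : ℕ} (C : Fin n → Cl V) (I : Fin n → V → Finset V)
    (a : U → Fin n → V → ℝ) (c : Fin n) : V ⊕ U → Finset V
  | .inl v => I c v
  | .inr u => spt (C c) (a u c)

/-- indicator of the relevant coins -/
def ind {n : ℕ} {C : Fin n → Cl V} {T : ℕ} (τ : ℕ → ℕ) (om : Cf C T) (A a : ℕ) (c : Fin n)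
    (v : V) : ℝ := if a = A ∨ Iv (τ a) (τ (a + 1)) (om c) v then 1 else 0

/-- the weights of the coins -/
def gco {n : ℕ} {C : Fin n → Cl V} {T : ℕ} (τ : ℕ → ℕ) (om : Cf C T) (A : ℕ)
    (al : Fin n → V → ℝ) (a : ℕ) (c : Fin n) (v' : V) : ℝ :=
  al c v' * ind τ om A a c v' + ∑ v ∈ univ.filter (fun v => cx (om c) v' = some v),
    al c v * ind τ om A a c v

lemma ind_nonneg {n : ℕ} {C : Fin n → Cl V} {T : ℕ} (τ : ℕ → ℕ) (om : Cf C T) (A a : ℕ)
    (c : Fin n) (v : V) : 0 ≤ ind τ om A a c v := by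
  unfold ind; split_ifs <;> norm_num

lemma ind_le {n : ℕ} {C : Fin n → Cl V} {T : ℕ} (τ : ℕ → ℕ) (om : Cf C T) (A a : ℕ)
    (c : Fin n) (v : V) : ind τ om A a c v ≤ 1 := by
  unfold ind; split_ifs <;> norm_num

lemma filt_some {f : V → Option V} (v' : V) :
    (univ.filter fun v => f v' = some v) = match f v' with
      | some v => {v}
      | none => ∅ := by
  ext v
  cases h : f v' with
  | none => simp
  | some y =>
    simp only [mem_filter, mem_univ, true_and, Option.some.injEq, mem_singleton]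
    exact eq_comm

lemma sum_filt_le {f : V → Option V} (F : V → ℝ) (w : ℝ) (hw : 0 ≤ w) (hF : ∀ v, F v ≤ w)
    (v' : V) : (∑ v ∈ univ.filter (fun v => f v' = some v), F v) ≤ w := by
  rw [filt_some]
  cases h : f v' with
  | none => simpa using hw
  | some y => simpa using hF y

/-- exchange: the sum over all `v'` of the values at the images -/
lemma sum_img {f : V → Option V} (hf : PInj f) (F : V → ℝ) (hF : ∀ v, 0 ≤ F v) :
    (∑ v', ∑ v ∈ univ.filter (fun v => f v' = some v), F v) ≤ ∑ v, F v := by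
  have h1 : (∑ v', ∑ v ∈ univ.filter (fun v => f v' = some v), F v) =
      ∑ v, ∑ v' ∈ univ.filter (fun v' => f v' = some v), F v := by
    rw [Finset.sum_comm' (t' := univ) (s' := fun v => univ.filter fun v' => f v' = some v)]
    intro x y
    simp
  rw [h1]
  apply Finset.sum_le_sum
  intro v _
  rw [Finset.sum_const, nsmul_eq_mul]
  have h2 : (univ.filter fun v' => f v' = some v).card ≤ 1 := by
    rw [Finset.card_le_one]
    intro x hx y hy
    rw [mem_filter] at hx hy
    exact hf x y v hx.2 hy.2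
  have h3 : ((univ.filter fun v' => f v' = some v).card : ℝ) ≤ 1 := by exact_mod_cast h2
  calc ((univ.filter fun v' => f v' = some v).card : ℝ) * F v ≤ 1 * F v :=
        mul_le_mul_of_nonneg_right h3 (hF v)
    _ = F v := one_mul _

end

end Pool.Agent.C4K.H7
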