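import Pool.Agent.Helper7_C4K.Wall2

/-!
# Assembly of WALKS with the linear statistic, part 3: the stages
-/

set_option autoImplicit false
set_option linter.unusedSectionVars false

namespace Pool.Agent.C4K.H7

open Finset Cl
open scoped Classical

noncomputable section

variable {V : Type} [Fintype V]

/-- result of the first stage -/
structure St1 {n : ℕ} {C : Fin n → Cl V} {U : Type} (B : ℕ) (k s eps : ℝ)
    (a : U → Fin n → V → ℝ) (om : Cf C (kT k)) : Prop where
  mu : ∀ c u, mult (om c) u < kK B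
  D : ∀ v, (univ.filter fun c => Dv (om c) v).card ≤ kM B
  Jt : ∀ v, (univ.filter fun c => Jt (kτ k 0) (om c) v).card ≤ kM B
  Jh : ∀ v, (univ.filter fun c => Jh (kτ k 0) (om c) v).card ≤ kM B
  dO : ∀ v, om ∉ dupO (kM B) v
  dI : ∀ v, om ∉ dupI (kM B) v
  Iv : ∀ t, t < 11 → ∀ v, (univ.filter fun c => Iv (kτ k t) (kτ k (t + 1)) (om c) v).card ≤
    kmB k n (kd s eps) B t
  old : ∀ c v, (∀ j, j < kL0 k → it (C c).f j v ≠ none) →
    ∃ j u, it (C c).f j v = some u ∧ mult (om c) u ≠ 0
  l1 : ∀ u, (∑ c, F1 (kτ k 0) (a u c) (om c)) ≤ kX k + kb k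
  l2 : ∀ u, (∑ c, ∑ v, a u c v * (if dup om c v then 1 else 0)) ≤
    (4 * ((kN2 n : ℝ) + 1)) * kX3 k
  l3 : ∀ t, t < 11 → ∀ u, (∑ c, F2 (kτ k t) (kτ k (t + 1)) (a u c) (om c)) ≤
    kXI k n (kd s eps) t + 100

lemma evC_card {n : ℕ} {C : Fin n → Cl V} {T : ℕ} (X : ∀ c, Set ((C c).Wk T → Bool)) (m : ℕ)
    (om : Cf C T) (h : om ∉ evC X m) : (univ.filter fun c => om c ∈ X c).card ≤ m := by
  unfold evC at h
  simp only [Set.mem_ofPred_eq, not_le] at h
  exact h.le

theorem stage1 (hNOD : NODStmt) (hPRD : PRDStmt) (hQ23 : Q23Stmt) (hQ6 : Q6Stmt)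
    (hPRC : PRCStmt) (hPRE : PREStmt) (hSUM : SUMGStmt) (hISE : ISEStmt) (hLI1 : LI1Stmt)
    (hLI2 : LI2Stmt) (hLI3 : LI3Stmt) {n B : ℕ} (C : Fin n → Cl V) {k s eps : ℝ}
    (hk1 : 1 ≤ k) (hNH : NH k n s eps) (n1 : Nu1 k s eps) (n2 : NuB2 B k n s eps)
    (n4 : NuB4 B k n s eps)
    (hpar : ∀ c, Par (C c) (kd s eps) (kT k) (kp k s) (kz k) (kr k))
    (hlow : ∀ c, Low (C c) (ks1 s eps) (kT k) (kp k s) (kz k))
    (hL0 : ∀ c x m, 1 ≤ m → it (C c).f m x = some x → kL0 k ≤ m)
    (hMK : ∀ c, MK (C c) (kL1 k)) (U : Type) [Fintype U] (a : U → Fin n → V → ℝ)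
    (ha : LinH k B U a) : ∃ om : Cf C (kT k), St1 B k s eps a om := by
  have hp0 : 0 ≤ kp k s := n1.p0.le
  have hp1 : kp k s ≤ 1 := n1.ph.trans (by norm_num)
  have hNds : ∀ c, Nds (C c) (kT k) (kL k) := fun c => hNOD V (C c) _ _ _ (hpar c).ok n1.L
  have hB1 : 1 ≤ kB1 k B := by
    unfold kB1
    rw [Nat.one_le_ceil_iff]
    exact Real.rpow_pos_of_pos (by linarith) _
  have hc1 : ∀ u, (univ.filter fun v => ∃ c, a u c v ≠ 0).card ≤ kB1 k B := by
    intro u
    have h := (ha.c1 u).trans (Nat.le_ceil _)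
    unfold kB1
    exact_mod_cast h
  have hc2 : ∀ v, (univ.filter fun u => ∃ c, a u c v ≠ 0).card ≤ kB1 k B := by
    intro v
    have h := (ha.c2 v).trans (Nat.le_ceil _)
    unfold kB1
    exact_mod_cast h
  choose I hI1 hI2 hI3 hI4 using fun c =>
    hISE V (C c) (kL0 k) (kL1 k) (hpar c).ok.inj n1.L1 (hL0 c) (hMK c)
  obtain ⟨rel, hrel⟩ : ∃ rel : Fin n → V → Prop, ∀ c v,
      rel c v ↔ ∀ j, j < kL0 k → it (C c).f j v ≠ none := ⟨_, fun _ _ => Iff.rfl⟩
  have hLI : ∀ u c, _ := fun u c => hLI1 V (C c) _ _ _ _ _ (hpar c) (a u c) (kwm k) (kb k) n4.w0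
    (fun v => ⟨ha.a0 u c v, ha.a1 u c v⟩) (ha.s1 u c) n4.b1 n4.b2
  have hspt : ∀ u c, (spt (C c) (a u c)).card ≤ 2 * kB1 k B := by
    intro u c
    refine (card_spt (hpar c).ok.inj (a u c) (univ.filter fun v => ∃ c, a u c v ≠ 0) ?_).trans
      (Nat.mul_le_mul_left _ (hc1 u))
    intro v hv
    rw [mem_filter]
    exact ⟨mem_univ _, c, hv⟩
  obtain ⟨om, hA, hX, hK⟩ := hSUM V n C (kd s eps) (kT k) (kp k s) (kz k) (kr k) (kL k) (kK B)
    hNH.n1 hpar n1.L n1.TL (by unfold kK; omega) _
    (evJ C (kT k) (kM B) (kL k) (kK B) (kτ k) (kmB k n (kd s eps) B) (kX k) (kb k)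
      ((4 * ((kN2 n : ℝ) + 1)) * kX3 k) (kXI k n (kd s eps)) a) (vsJ a) (30 * kB1 k B)
    (kεB k B) (by omega) n2.e0 (by linarith [n2.e4]) (card_vs a hB1 hc1)
    (card_centres a hB1 hc2)
    (by
      intro j om om' h
      match j with
      | .inl x =>
        have h' : agr (kL k) om om' x.2 := h x.2 (by
          show x.2 ∈ ({x.2} : Finset V)
          exact mem_singleton_self _)
        show (om' ∈ base C (kT k) (kM B) (kτ k) (kmB k n (kd s eps) B) x.1 x.2 ∧
          ∀ v ∈ ({x.2} : Finset V), om' ∈ gd (kL k) (kK B) v) ↔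
          (om ∈ base C (kT k) (kM B) (kτ k) (kmB k n (kd s eps) B) x.1 x.2 ∧
          ∀ v ∈ ({x.2} : Finset V), om ∈ gd (kL k) (kK B) v)
        simp only [mem_singleton, forall_eq]
        rw [base_agr hNds _ _ _ (tau_le n1) om om' x.2 h' x.1, gd_agr hNds om om' x.2 h']
      | .inr x =>
        have h1 := lin_agr hNds (kτ k) (kX k) (kb k) ((4 * ((kN2 n : ℝ) + 1)) * kX3 k)
          (kXI k n (kd s eps)) (a x.2) (tau_le n1) om om' (by
            intro v hv
            apply h v
            show v ∈ univ.filter fun v => ∃ c, a x.2 c v ≠ 0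
            rw [mem_filter]
            exact ⟨mem_univ _, hv⟩) x.1
        show (om' ∈ lin C (kT k) (kτ k) (kX k) (kb k) ((4 * ((kN2 n : ℝ) + 1)) * kX3 k)
          (kXI k n (kd s eps)) (a x.2) x.1 ∧
          ∀ v ∈ univ.filter (fun v => ∃ c, a x.2 c v ≠ 0), om' ∈ gd (kL k) (kK B) v) ↔
          (om ∈ lin C (kT k) (kτ k) (kX k) (kb k) ((4 * ((kN2 n : ℝ) + 1)) * kX3 k)
          (kXI k n (kd s eps)) (a x.2) x.1 ∧
          ∀ v ∈ univ.filter (fun v => ∃ c, a x.2 c v ≠ 0), om ∈ gd (kL k) (kK B) v)
        rw [h1]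
        apply and_congr_right
        intro _
        apply forall₂_congr
        intro v hv
        exact gd_agr hNds om om' v (h v hv))
    (by
      intro j om h
      match j with
      | .inl x => exact fun v hv => h.2 v hv
      | .inr x => exact fun v hv => h.2 v hv)
    (by
      intro j c om
      match j with
      | .inl x =>
        refine le_trans (PC_mono C (kT k) hp0 hp1 ?_)
          (base_prB hPRD hQ23 hPRC hPRE C n2 hpar n1.tau1 x.1 x.2 c om)
        intro et h
        exact h.1
      | .inr x =>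
        refine le_trans (PC_mono C (kT k) hp0 hp1 ?_)
          (lin_pr hPRD hQ23 hLI2 hLI3 C n4 hpar n1.tau1 (a x.2) (ha.a0 x.2) (ha.a1 x.2)
            (ha.s1 x.2) (hc1 x.2) x.1 c om)
        intro et h
        exact h.1)
    (V ⊕ U) (oneX C (kT k) (kK B) (kb k) I rel a) (oneI C I a) (kL0 k + 3 * kB1 k B) (kε7 k)
    (Real.exp_pos _).le n2.e7
    (by
      intro c h
      match h with
      | .inl v => exact (hI3 c v).trans (by omega)
      | .inr u => exact (hspt u c).trans (by omega))
    (by
      intro c x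
      rw [card_filter_sum]
      have e1 : (univ.filter fun v => x ∈ oneI C I a c (.inl v)).card ≤ kL0 k := hI4 c x
      have e2 : (univ.filter fun u => x ∈ oneI C I a c (.inr u)).card ≤ 2 * kB1 k B := by
        have e3 : (univ.filter fun u => x ∈ oneI C I a c (.inr u)) ⊆
            (univ.filter fun u => ∃ c, a u c x ≠ 0) ∪
            (match (C c).f x with
              | some y => univ.filter fun u => ∃ c, a u c y ≠ 0
              | none => ∅) := by
          intro u hu
          rw [mem_filter] at hu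
          have h3 : x ∈ spt (C c) (a u c) := hu.2
          unfold spt at h3
          rw [mem_filter] at h3
          rw [mem_union]
          rcases h3.2 with h | ⟨v, h, h'⟩
          · left
            rw [mem_filter]
            exact ⟨mem_univ _, c, h⟩
          · right
            rw [h]
            simp only [mem_filter, mem_univ, true_and]
            exact ⟨c, h'⟩
        refine (Finset.card_le_card e3).trans ((Finset.card_union_le _ _).trans ?_)
        have e4 := hc2 x
        cases hx : (C c).f x with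
        | none => simp only [card_empty]; omega
        | some y =>
          have e5 := hc2 y
          simp only
          omega
      omega)
    (by
      intro c h om om' hw
      match h with
      | .inl v =>
        show (rel c v ∧ ∀ u ∈ I c v, mult om' u = 0) ↔ (rel c v ∧ ∀ u ∈ I c v, mult om u = 0)
        apply and_congr_right
        intro _
        apply forall₂_congr
        intro u hu
        rw [mult_rd om om' (I c v) hw hu]
      | .inr u =>
        show (kb k ≤ gst (a u c) om' ∧ ∀ x ∈ spt (C c) (a u c), mult om' x < kK B) ↔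
          (kb k ≤ gst (a u c) om ∧ ∀ x ∈ spt (C c) (a u c), mult om x < kK B)
        rw [(hLI u c).2.2.1 om om' hw]
        apply and_congr_right
        intro _
        apply forall₂_congr
        intro x hx
        rw [mult_rd om om' (spt (C c) (a u c)) hw hx])
    (by
      intro c h om hom x hx
      match h with
      | .inl v =>
        have h1 : mult om x = 0 := hom.2 x hx
        rw [h1]
        unfold kK
        omega
      | .inr u => exact hom.2 x hx)
    (by
      intro c h
      match h with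
      | .inl v =>
        by_cases hv : rel c v
        · have hc : (I c v).card = kL0 k / kL1 k := hI2 c v ((hrel c v).1 hv)
          have h1 := hQ6 V (C c) _ _ _ _ _ _ (hpar c) (hlow c) (I c v)
            (fun u hu => (hI1 c v u hu).1) (by rw [hc]; exact n1.h1) (by rw [hc]; exact n1.h2)
          rw [hc] at h1
          refine le_trans (Pr_mono hp0 hp1 ?_) (h1.trans n2.h6)
          intro om h
          exact h.2
        · have : oneX C (kT k) (kK B) (kb k) I rel a c (.inl v) = ∅ := by
            ext om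
            simp only [Set.mem_empty_iff_false, iff_false]
            exact fun h => hv h.1
          rw [this, Pr_empty]
          exact (Real.exp_pos _).le
      | .inr u =>
        refine le_trans (Pr_mono hp0 hp1 ?_) ((hLI u c).1.trans n4.a8)
        intro om h
        exact h.1)
    (by
      intro c h w
      match h with
      | .inl v =>
        by_cases hv : rel c v
        · have hc : (I c v).card = kL0 k / kL1 k := hI2 c v ((hrel c v).1 hv)
          have h1 := hQ6 V (C c) _ _ _ _ _ _ (hpar c) (hlow c) (I c v)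
            (fun u hu => (hI1 c v u hu).1) (by rw [hc]; exact n1.h1) (by rw [hc]; exact n1.h2)
          rw [hc] at h1
          refine le_trans (Pr_mono hp0 hp1 ?_) (h1.trans n2.h6)
          intro om h u hu
          have h2 : mult (ins om w) u = 0 := h.2 u hu
          have h3 := mult_ins om w u
          omega
        · have : {om : (C c).Wk (kT k) → Bool |
              ins om w ∈ oneX C (kT k) (kK B) (kb k) I rel a c (.inl v)} = ∅ := by
            ext om
            simp only [Set.mem_empty_iff_false, iff_false]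
            exact fun h => hv h.1
          rw [this, Pr_empty]
          exact (Real.exp_pos _).le
      | .inr u =>
        refine le_trans (Pr_mono hp0 hp1 ?_) (((hLI u c).2.1 w).trans n4.a8)
        intro om h
        exact h.1)
    n2.sum
  have hbase : ∀ t v, om ∉ base C (kT k) (kM B) (kτ k) (kmB k n (kd s eps) B) t v := by
    intro t v h
    exact hA (.inl (t, v)) ⟨h, fun v' _ c u _ => hK c u⟩
  have hlin : ∀ t u, om ∉ lin C (kT k) (kτ k) (kX k) (kb k) ((4 * ((kN2 n : ℝ) + 1)) * kX3 k)
      (kXI k n (kd s eps)) (a u) t := by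
    intro t u h
    exact hA (.inr (t, u)) ⟨h, fun v' _ c u _ => hK c u⟩
  refine ⟨om, hK, fun v => evC_card _ _ _ (hbase (.inl 0) v),
    fun v => evC_card _ _ _ (hbase (.inl 1) v), fun v => evC_card _ _ _ (hbase (.inl 2) v),
    fun v => hbase (.inl 3) v, fun v => hbase (.inl 4) v,
    fun t ht v => evC_card _ _ _ (hbase (.inr ⟨t, ht⟩) v), ?_, ?_, ?_, ?_⟩
  · intro c v hv
    have h1 := hX c (.inl v)
    have h2 : ¬ (rel c v ∧ ∀ u ∈ I c v, mult (om c) u = 0) := h1
    have h3 : rel c v := (hrel c v).2 hv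
    have h4 : ¬ ∀ u ∈ I c v, mult (om c) u = 0 := fun h => h2 ⟨h3, h⟩
    push Not at h4
    obtain ⟨u, hu, hmu⟩ := h4
    obtain ⟨_, j, _, hj⟩ := hI1 c v u hu
    exact ⟨j, u, hj, hmu⟩
  · intro u
    have h1 : ¬ (kX k + kb k < ∑ c, min (F1 (kτ k 0) (a u c) (om c)) (kb k)) := hlin (.inl 0) u
    rw [not_lt] at h1
    refine le_trans (le_of_eq ?_) h1
    apply Finset.sum_congr rfl
    intro c _
    have h2 := hX c (.inr u)
    have h3 : ¬ (kb k ≤ gst (a u c) (om c) ∧ ∀ x ∈ spt (C c) (a u c), mult (om c) x < kK B) := h2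
    have h4 : gst (a u c) (om c) < kb k := by
      by_contra hcon
      rw [not_lt] at hcon
      exact h3 ⟨hcon, fun x _ => hK c x⟩
    have h5 : F1 (kτ k 0) (a u c) (om c) ≤ gst (a u c) (om c) := (hLI u c).2.2.2 (om c) _
    rw [min_eq_left (h5.trans h4.le)]
  · intro u
    have h1 : ¬ ((4 * ((kN2 n : ℝ) + 1)) * kX3 k <
      ∑ c, ∑ v, a u c v * (if dup om c v then 1 else 0)) := hlin (.inl 1) u
    exact not_lt.1 h1
  · intro t ht u
    have h1 : ¬ (kXI k n (kd s eps) t + 100 <
      ∑ c, F2 (kτ k t) (kτ k (t + 1)) (a u c) (om c)) := hlin (.inr ⟨t, ht⟩) u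
    exact not_lt.1 h1

end

end Pool.Agent.C4K.H7
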